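import Pool.Agent.Run7.h672.CC.G
import Pool.Agent.Run7.h672.CC.H
import Pool.Agent.N625.PT.X2

set_option autoImplicit false

/-!
# Classes of laws with small exponential sums

What the chain `Pool.Agent.N625.PT.X2` - `X19` of the starting library uses of the laws with exchangeable blocks, as a structure; it
holds for the concatenations of random words.
-/

namespace Pool.Agent.Run7.h672.XC
open Finset
open Pool.Agent.TH872
open Pool.Agent.Y958.SP (nn)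
open Pool.Agent.H807R2.Dav
open Pool.Agent.Y885 (TLaw)
open Pool.Agent.N625.PT (Mf Mf_pos far_low nn_rat)
open Pool.Agent.Run7.h672.CC

/-- a class of laws with small exponential sums -/
structure RCls (b L T : ℕ) (𝒞 : ℕ → (ℕ → ℝ) → Prop) : Prop where
  two : 2 ≤ b
  one : 1 ≤ L
  nonneg : ∀ k p, 𝒞 k p → ∀ v, 0 ≤ p v
  sum : ∀ k p, 𝒞 k p → ∑ v ∈ range (b ^ k), p v = 1
  tlaw : ∀ κ : ℤ, κ ≠ 0 → ∀ W V : ℕ, ∃ c m₀ : ℕ, ∀ m : ℕ, m₀ ≤ m → ∀ e : ℕ, (e : ℝ) ≤ W * Real.log m →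
    ∀ h : ℕ, 1 ≤ h → Nat.log b (Mf b L κ * h) ≤ e → ∀ p, 𝒞 m p → ∀ cc : ℤ,
    TLaw b 15 c V (m + e) (range (b ^ m)) p (fun v : ℕ => (h : ℤ) * (cc + κ * v))
  char : ∃ μ : ℝ, 0 < μ ∧ μ < 1 ∧ ∀ (k : ℕ) (p : ℕ → ℝ), 𝒞 k p → ∀ S : Finset ℕ, (∀ q ∈ S, q.Prime ∧ b ^ L < q) →
    ∀ m : ℕ, 1 ≤ m → ∏ q ∈ S, q < 2 ^ m → L ≤ k / m → ∀ a : ℕ, 1 ≤ a → a < ∏ q ∈ S, q →
    ‖∑ v ∈ range (b ^ k), (p v : ℂ) * ee (v * ((a : ℝ) / ((∏ q ∈ S, q : ℕ) : ℝ)))‖ ≤ (k : ℝ) ^ T * μ ^ (k / m - L)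

/-- **the concatenations of random words** -/
theorem word_rcls {b : ℕ} {q : ℕ → ℕ → ℝ} (hW : Words b q) : ∃ L T : ℕ, RCls b L T (WordLaw b q) := by
  obtain ⟨L, hL, hDec⟩ := exists_dec hW
  have hb := hW.two
  obtain ⟨μ, C, hμ0, hμ1, hC, h⟩ := char_pow hb hDec
  obtain ⟨T, hT⟩ := pow_unbounded_of_one_lt C (show (1 : ℝ) < 2 by norm_num)
  refine ⟨L, T, hb, hL, fun k p hp => law_nonneg hW hp, fun k p hp => law_sum hp, fun κ hκ W V => word_tlaw hW hDec κ hκ 15 le_rfl W V,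
    μ, hμ0, hμ1, fun k p hp S hS m hm hd hLk a ha1 ha2 => ?_⟩
  obtain ⟨d, hdd⟩ : ∃ d, d = ∏ q ∈ S, q := ⟨_, rfl⟩
  rw [← hdd] at hd ha2 ⊢
  have hd1 : 1 ≤ d := by omega
  have hd0 : (0 : ℝ) < d := by exact_mod_cast hd1
  obtain ⟨F, hF⟩ : ∃ F, F = b.factorial * (b ^ L).factorial := ⟨_, rfl⟩
  have hbL : b ≤ b ^ L := Nat.le_self_pow (by omega) b
  have hcop : ∀ j : ℕ, Nat.Coprime d (F * b ^ j) := by
    intro j
    rw [hdd]
    apply Nat.Coprime.prod_left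
    intro q hq
    obtain ⟨hqp, hqb⟩ := hS q hq
    rw [Nat.Prime.coprime_iff_not_dvd hqp, hF]
    intro hdv
    rcases (hqp.dvd_mul).1 hdv with h1 | h1
    · rcases (hqp.dvd_mul).1 h1 with h2 | h2
      · rw [hqp.dvd_factorial] at h2
        omega
      · rw [hqp.dvd_factorial] at h2
        omega
    · have h2 := Nat.le_of_dvd (by omega) (hqp.dvd_of_dvd_pow h1)
      omega
  have hfar := far_low b F k m hb ((a : ℝ) / d) (by
    intro j
    have e1 : (F : ℝ) * ((b : ℝ) ^ j * ((a : ℝ) / d)) = (((F * b ^ j * a : ℕ) : ℤ) : ℝ) / d := by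
      push_cast
      ring
    rw [e1]
    refine lt_of_lt_of_le ?_ (nn_rat _ d hd1 ?_)
    · apply one_div_lt_one_div_of_lt hd0
      exact_mod_cast hd
    · intro hdv
      have h1 : d ∣ F * b ^ j * a := by exact_mod_cast hdv
      have h2 := (hcop j).dvd_of_dvd_mul_left h1
      have h3 := Nat.le_of_dvd (by omega) h2
      omega)
  rw [hF] at hfar
  have hk1 : 1 ≤ k := by
    by_contra h0
    have : k = 0 := by omega
    rw [this, Nat.zero_div] at hLk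
    omega
  rcases Nat.lt_or_ge k 2 with hk | hk
  · have hk' : k = 1 := by omega
    have e2 : k / m - L = 0 := by
      have : k / m ≤ k := Nat.div_le_self _ _
      omega
    rw [e2, pow_zero, mul_one, hk', Nat.cast_one, one_pow, ← law_sum hp, hk']
    rw [hk'] at hp
    refine (norm_sum_le _ _).trans (le_of_eq ?_)
    apply sum_congr rfl
    intro v _
    rw [norm_mul, norm_ee, mul_one, Complex.norm_real, Real.norm_eq_abs, abs_of_nonneg (law_nonneg hW hp v)]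
  · have hkr : (2 : ℝ) ≤ k := by exact_mod_cast hk
    have h1 := h k p hp ((a : ℝ) / d) (k / m - L) (by omega)
    refine h1.trans (mul_le_mul_of_nonneg_right ?_ (by positivity))
    exact hT.le.trans (pow_le_pow_left₀ (by norm_num) hkr T)

end Pool.Agent.Run7.h672.XC
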