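import Pool.Agent.N625.PT.X3
import Pool.Agent.Run7.h672.XC.X2

set_option autoImplicit false

/-! The theorems of `Pool.Agent.N625.PT.X3` (starting library, exchangeable blocks) for any class of laws with small exponential
sums: the text is that of the starting library, with the hypothesis replaced by `RCls`. -/

namespace Pool.Agent.Run7.h672.XC
open Pool.Agent.N625.PT
open Finset
open Pool.Agent.H373R2.T7 (pz mem_pz nuB PerB nuB_le)
open Pool.Agent.Y877.SX (mid Vm fd FF mem_mid fac_pos fac_le Vm_pos Vm_le fd_one fac_inv_one one_le_prodR)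

open Classical in
lemma single_law {b L T : ℕ} {𝒞 : ℕ → (ℕ → ℝ) → Prop} (hcls : RCls b L T 𝒞) (E U : ℕ) :
    ∃ k₀ : ℕ, ∀ k : ℕ, k₀ ≤ k → ∀ p, 𝒞 k p → ∀ y z : ℕ, b ^ L ≤ y → 1 ≤ z → (z : ℝ) ≤ (k : ℝ) ^ E →
    ∀ P : Finset ℕ, P ⊆ mid y z → ∀ α β : ℤ, (∀ q ∈ P, ¬ (q : ℤ) ∣ α) →
    VP P - 1 / (k : ℝ) ^ U ≤ ∑ v ∈ (range (b ^ k)).filter (fun v : ℕ => ∀ q ∈ P, ¬ (q : ℤ) ∣ α * v + β), p v := by
  have hb := hcls.two
  have hL := hcls.one
  obtain ⟨k₀, h0⟩ := law_sieve hcls 1 E U le_rfl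
  refine ⟨k₀, fun k hk p hp y z hy hz hzE P hP α β hα => ?_⟩
  obtain ⟨Q, hQd⟩ : ∃ Q : ℕ → ℕ → Prop, ∀ q n, Q q n ↔ (q ∈ P ∧ (q : ℤ) ∣ α * (n : ℕ) + β) := ⟨_, fun _ _ => Iff.rfl⟩
  have hQ : PerB Q 1 := by
    refine ⟨fun q n => by rw [hQd, hQd, dvd_modZ], fun q hq => ?_⟩
    unfold nuB
    by_cases h : q ∈ P
    · refine le_trans (card_le_card ?_) (few_oneZ q α β hq (hα q h))
      intro r hr
      rw [mem_filter] at hr ⊢
      exact ⟨hr.1, ((hQd _ _).1 hr.2).2⟩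
    · rw [filter_false_of_mem (fun r _ => by rw [hQd]; tauto), card_empty]
      exact Nat.zero_le _
  have h1 := h0 k hk p hp z hz hzE Q hQ (fun q n hq => by
    have := (mem_mid.1 (hP ((hQd q n).1 hq).1)).1
    omega)
  have hsub : ∀ q ∈ P, q ∈ pz z := fun q hq => mem_pz.2 (mem_mid.1 (hP hq)).2
  have e1 : (range (b ^ k)).filter (fun v : ℕ => ∀ q ∈ pz z, ¬ Q q v) =
      (range (b ^ k)).filter (fun v : ℕ => ∀ q ∈ P, ¬ (q : ℤ) ∣ α * v + β) := by
    apply filter_congr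
    intro n _
    constructor
    · intro h q hq hd
      exact h q (hsub q hq) ((hQd _ _).2 ⟨hq, hd⟩)
    · intro h q _ hq
      obtain ⟨hq, hd⟩ := (hQd _ _).1 hq
      exact h q hq hd
  rw [e1] at h1
  have h2 := (abs_le.1 h1).1
  have h3 : VP P ≤ ∏ q ∈ pz z, (1 - (nuB Q q : ℝ) / q) := by
    have : VP P = ∏ q ∈ pz z, (if q ∈ P then (1 - 1 / (q : ℝ)) else 1) := by
      unfold VP
      rw [← prod_filter]
      apply prod_congr _ (fun _ _ => rfl)
      ext q
      rw [mem_filter]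
      exact ⟨fun h => ⟨hsub q h, h⟩, fun h => h.2⟩
    rw [this]
    apply prod_le_prod
    · intro q hq
      split_ifs
      · exact (fac_pos (mem_pz.1 hq).2).le
      · exact zero_le_one
    · intro q hq
      have hpp := (mem_pz.1 hq).2
      have hp0 : (0 : ℝ) < q := by exact_mod_cast hpp.pos
      split_ifs with hy
      · have : (nuB Q q : ℝ) ≤ 1 := by exact_mod_cast hQ.few q hpp
        gcongr
      · have : nuB Q q = 0 := by
          unfold nuB
          rw [filter_false_of_mem, card_empty]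
          intro r _ hq
          exact hy ((hQd _ _).1 hq).1
        rw [this]
        simp
  linarith

open Classical in
lemma pair_law {b L T : ℕ} {𝒞 : ℕ → (ℕ → ℝ) → Prop} (hcls : RCls b L T 𝒞) (E U : ℕ) :
    ∃ k₀ : ℕ, ∀ k : ℕ, k₀ ≤ k → ∀ p, 𝒞 k p → ∀ y z : ℕ, b ^ L ≤ y → 1 ≤ z → (z : ℝ) ≤ (k : ℝ) ^ E →
    ∀ P : Finset ℕ, P ⊆ mid y z → ∀ (α β β' : ℤ) (D : ℕ), (∀ q ∈ P, ¬ (q : ℤ) ∣ α) →
    (∀ q ∈ P, ∀ v : ℕ, (q : ℤ) ∣ α * v + β → (q : ℤ) ∣ α * v + β' → q ∣ D) →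
    ∑ v ∈ (range (b ^ k)).filter (fun v : ℕ => (∀ q ∈ P, ¬ (q : ℤ) ∣ α * v + β) ∧ (∀ q ∈ P, ¬ (q : ℤ) ∣ α * v + β')), p v ≤
      VP P ^ 2 * fd y z D + 1 / (k : ℝ) ^ U := by
  have hb := hcls.two
  have hL := hcls.one
  obtain ⟨k₀, h0⟩ := law_sieve hcls 2 E U (by norm_num)
  refine ⟨k₀, fun k hk p hp y z hy hz hzE P hP α β β' D hα hD => ?_⟩
  obtain ⟨Q, hQd⟩ : ∃ Q : ℕ → ℕ → Prop, ∀ q n, Q q n ↔ (q ∈ P ∧ ((q : ℤ) ∣ α * (n : ℕ) + β ∨ (q : ℤ) ∣ α * (n : ℕ) + β')) :=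
    ⟨_, fun _ _ => Iff.rfl⟩
  have hQ : PerB Q 2 := by
    refine ⟨fun q n => by rw [hQd, hQd, dvd_modZ, dvd_modZ q α β'], fun q hq => ?_⟩
    unfold nuB
    by_cases h : q ∈ P
    · have h1 := few_oneZ q α β hq (hα q h)
      have h2 := few_oneZ q α β' hq (hα q h)
      refine le_trans (card_le_card (t := (range q).filter (fun r => (q : ℤ) ∣ α * (r : ℕ) + β) ∪
        (range q).filter (fun r => (q : ℤ) ∣ α * (r : ℕ) + β')) ?_) ?_
      · intro r hr
        rw [mem_filter] at hr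
        rw [mem_union, mem_filter, mem_filter]
        rcases ((hQd _ _).1 hr.2).2 with h | h
        · exact Or.inl ⟨hr.1, h⟩
        · exact Or.inr ⟨hr.1, h⟩
      · exact (card_union_le _ _).trans (by omega)
    · rw [filter_false_of_mem (fun r _ => by rw [hQd]; tauto), card_empty]
      exact Nat.zero_le _
  have h1 := h0 k hk p hp z hz hzE Q hQ (fun q n hq => by
    have := (mem_mid.1 (hP ((hQd q n).1 hq).1)).1
    omega)
  have hsub : ∀ q ∈ P, q ∈ pz z := fun q hq => mem_pz.2 (mem_mid.1 (hP hq)).2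
  have e1 : (range (b ^ k)).filter (fun v : ℕ => ∀ q ∈ pz z, ¬ Q q v) =
      (range (b ^ k)).filter (fun v : ℕ => (∀ q ∈ P, ¬ (q : ℤ) ∣ α * v + β) ∧ (∀ q ∈ P, ¬ (q : ℤ) ∣ α * v + β')) := by
    apply filter_congr
    intro n _
    constructor
    · intro h
      exact ⟨fun q hq hd => h q (hsub q hq) ((hQd _ _).2 ⟨hq, Or.inl hd⟩),
        fun q hq hd => h q (hsub q hq) ((hQd _ _).2 ⟨hq, Or.inr hd⟩)⟩
    · rintro ⟨ha, hb⟩ q _ hq
      obtain ⟨hq, hd | hd⟩ := (hQd _ _).1 hq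
      · exact ha q hq hd
      · exact hb q hq hd
  rw [e1] at h1
  have h2 := (abs_le.1 h1).2
  have h3 : ∏ q ∈ pz z, (1 - (nuB Q q : ℝ) / q) ≤ VP P ^ 2 * fd y z D := by
    have e0 : ∏ q ∈ P.filter (fun q => q ∣ D), (1 - 1 / (q : ℝ))⁻¹ ≤ fd y z D := by
      unfold fd
      have hs2 : P.filter (fun q => q ∣ D) ⊆ (mid y z).filter (fun q => q ∣ D) := filter_subset_filter _ hP
      rw [← prod_sdiff hs2]
      apply le_mul_of_one_le_left
      · apply prod_nonneg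
        intro q hq
        exact zero_le_one.trans (fac_inv_one (mem_mid.1 (hP (mem_filter.1 hq).1)).2.2)
      · apply one_le_prodR
        intro q hq
        exact fac_inv_one (mem_mid.1 (mem_filter.1 (mem_sdiff.1 hq).1).1).2.2
    refine le_trans ?_ (mul_le_mul_of_nonneg_left e0 (by positivity))
    have e2 : VP P ^ 2 * ∏ q ∈ P.filter (fun q => q ∣ D), (1 - 1 / (q : ℝ))⁻¹ = ∏ q ∈ pz z, ((if q ∈ P then (1 - 1 / (q : ℝ)) ^ 2 else 1) *
        (if q ∈ P ∧ q ∣ D then (1 - 1 / (q : ℝ))⁻¹ else 1)) := by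
      unfold VP
      rw [prod_mul_distrib, ← prod_filter, ← prod_filter, ← prod_pow]
      congr 1
      · apply prod_congr _ (fun _ _ => rfl)
        ext q
        rw [mem_filter]
        exact ⟨fun h => ⟨hsub q h, h⟩, fun h => h.2⟩
      · apply prod_congr _ (fun _ _ => rfl)
        ext q
        rw [mem_filter, mem_filter]
        exact ⟨fun h => ⟨hsub q h.1, h⟩, fun h => h.2⟩
    rw [e2]
    apply prod_le_prod
    · intro q hq
      have hpp := (mem_pz.1 hq).2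
      have hp0 : (0 : ℝ) < q := by exact_mod_cast hpp.pos
      have : (nuB Q q : ℝ) / q ≤ 1 := by
        rw [div_le_one hp0]
        exact_mod_cast nuB_le Q q
      linarith
    · intro q hq
      have hpp := (mem_pz.1 hq).2
      have hp0 : (0 : ℝ) < q := by exact_mod_cast hpp.pos
      have hfp := fac_pos hpp
      by_cases hy : q ∈ P
      · obtain ⟨r1, hr1, hd1⟩ := rootZ_ex q α β hpp (hα q hy)
        obtain ⟨r2, hr2, hd2⟩ := rootZ_ex q α β' hpp (hα q hy)
        have m1 : r1 ∈ (range q).filter (fun r => Q q r) := mem_filter.2 ⟨mem_range.2 hr1, (hQd _ _).2 ⟨hy, Or.inl hd1⟩⟩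
        have m2 : r2 ∈ (range q).filter (fun r => Q q r) := mem_filter.2 ⟨mem_range.2 hr2, (hQd _ _).2 ⟨hy, Or.inr hd2⟩⟩
        rw [if_pos hy]
        by_cases hpD : q ∣ D
        · rw [if_pos ⟨hy, hpD⟩]
          have : (1 : ℝ) ≤ nuB Q q := by
            have : 0 < nuB Q q := by
              unfold nuB
              exact card_pos.2 ⟨r1, m1⟩
            exact_mod_cast this
          have h5 : (1 - 1 / (q : ℝ)) ^ 2 * (1 - 1 / (q : ℝ))⁻¹ = 1 - 1 / (q : ℝ) := by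
            field_simp
          rw [h5]
          gcongr
        · rw [if_neg (fun h => hpD h.2), mul_one]
          have hne : r1 ≠ r2 := by
            intro h
            rw [← h] at hd2
            exact hpD (hD q hy r1 hd1 hd2)
          have : (2 : ℝ) ≤ nuB Q q := by
            have : 1 < nuB Q q := by
              unfold nuB
              rw [one_lt_card]
              exact ⟨r1, m1, r2, m2, hne⟩
            exact_mod_cast this
          have h5 : 2 / (q : ℝ) ≤ (nuB Q q : ℝ) / q := by gcongr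
          have h6 : (1 - 1 / (q : ℝ)) ^ 2 = 1 - 2 / q + (1 / (q : ℝ)) ^ 2 := by ring
          rw [h6]
          have h7 : 0 ≤ (1 / (q : ℝ)) ^ 2 := by positivity
          linarith
      · rw [if_neg hy, if_neg (fun h => hy h.1)]
        have : 0 ≤ (nuB Q q : ℝ) / q := by positivity
        linarith
  linarith

end Pool.Agent.Run7.h672.XC
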