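import Pool.Agent.N625.PT.X10
import Pool.Agent.Run7.h672.XC.X3

set_option autoImplicit false

/-! The theorems of `Pool.Agent.N625.PT.X10` (starting library, exchangeable blocks) for any class of laws with small exponential
sums: the text is that of the starting library, with the hypothesis replaced by `RCls`. -/

namespace Pool.Agent.Run7.h672.XC
open Pool.Agent.N625.PT
open Finset
open Pool.Agent.H373R2.T7 (pz mem_pz Vz Vz_pos Vz_le_one Vz_inv_small ev_L')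
open Pool.Agent.Y877.SX (mid Vm fd mem_mid fac_pos fac_le Vm_pos Vm_le fd_one fd_mul FF_sum Vz_split fac_inv_one)

set_option maxHeartbeats 2000000 in
open Classical in
theorem rough_law2 {b L T : ℕ} {𝒞 : ℕ → (ℕ → ℝ) → Prop} (hcls : RCls b L T 𝒞) (A : ℕ) (δ ε : ℝ) (hδ : 0 < δ)
    (hε : 0 < ε) (θ : ℝ) (hθ : 0 < θ) (E : ℕ) : ∃ k₀ : ℕ, ∀ k : ℕ, k₀ ≤ k → ∀ p, 𝒞 k p →
    ∀ y z : ℕ, θ * Real.log k ≤ y → y ≤ z → (z : ℝ) ≤ (k : ℝ) ^ E → ∀ P : Finset ℕ, P ⊆ mid y z →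
    ∀ (X : ℕ) (S : Finset ℕ), S ⊆ Icc 1 X → (X : ℝ) ≤ S.card * (k : ℝ) ^ A → (k : ℝ) ^ 5 ≤ S.card →
    ∀ (α : ℤ) (β : ℕ → ℤ), (∀ q ∈ P, ¬ (q : ℤ) ∣ α) →
    (∀ s ∈ S, ∀ t ∈ S, ∀ q v : ℕ, (q : ℤ) ∣ α * v + β s → (q : ℤ) ∣ α * v + β t → q ∣ Nat.dist s t * (s + t)) →
    ∑ v ∈ range (b ^ k), (if δ * (S.card * VP P) < |((S.filter (fun s => ∀ q ∈ P, ¬ (q : ℤ) ∣ α * (v : ℕ) + β s)).card : ℝ) -
      S.card * VP P| then p v else 0) ≤ ε := by
  have hb := hcls.two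
  have hL := hcls.one
  obtain ⟨η, hη⟩ : ∃ η : ℝ, η = ε * δ ^ 2 / 2 := ⟨_, rfl⟩
  have hη0' : 0 < η := by rw [hη]; positivity
  have hlη : 0 < Real.log (1 + η) := Real.log_pos (by linarith)
  obtain ⟨R, hR⟩ := exists_nat_ge (2 * ((A + 2) / Real.log (1 + η) + 1) / θ)
  obtain ⟨G1, hG1⟩ := single_law hcls E 5
  obtain ⟨G2, hG2⟩ := pair_law hcls E 5
  obtain ⟨G3, hG3⟩ := VP_low E
  obtain ⟨x2, hx2⟩ := ev_L' (max (max 1 (Real.log (2 * Cr R))) (((b ^ L : ℕ) + 2) / θ))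
  obtain ⟨x3, hx3⟩ := exists_nat_ge (12 / (ε * δ ^ 2))
  refine ⟨max (max G1 G2) (max G3 (max x2 (max x3 1))), fun k hk p hp y z hy hyz hz P hP X S hS hSc hS5 α β hα hβ => ?_⟩
  have b1 : G1 ≤ k := le_trans (le_trans (le_max_left _ _) (le_max_left _ _)) hk
  have b2 : G2 ≤ k := le_trans (le_trans (le_max_right _ _) (le_max_left _ _)) hk
  have b3 : G3 ≤ k := le_trans (le_trans (le_max_left _ _) (le_max_right _ _)) hk
  have b4 : x2 ≤ k := le_trans (le_trans (le_trans (le_max_left _ _) (le_max_right _ _)) (le_max_right _ _)) hk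
  have b5 : x3 ≤ k := le_trans (le_trans (le_trans (le_trans (le_max_left _ _) (le_max_right _ _)) (le_max_right _ _)) (le_max_right _ _)) hk
  have b6 : 1 ≤ k := le_trans (le_trans (le_trans (le_trans (le_max_right _ _) (le_max_right _ _)) (le_max_right _ _)) (le_max_right _ _)) hk
  have hkr : (1 : ℝ) ≤ k := by exact_mod_cast b6
  have hk0 : (0 : ℝ) < k := by linarith
  have hLL0 := hx2 k b4
  have hLL : 1 ≤ Real.log k := (le_max_left _ _).trans ((le_max_left _ _).trans hLL0)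
  have hLC : Real.log (2 * Cr R) ≤ Real.log k := (le_max_right _ _).trans ((le_max_left _ _).trans hLL0)
  have hLb : (((b ^ L : ℕ) : ℝ) + 2) / θ ≤ Real.log k := (le_max_right _ _).trans hLL0
  have hx3' : 12 / (ε * δ ^ 2) ≤ k := hx3.trans (by exact_mod_cast b5)
  obtain ⟨lk, hlk⟩ : ∃ lk, lk = Real.log k := ⟨_, rfl⟩
  rw [← hlk] at hy hLL hLb hLC
  have hLb2 : ((b ^ L : ℕ) : ℝ) + 2 ≤ y := by
    rw [div_le_iff₀ hθ] at hLb
    linarith
  have hbLy : b ^ L ≤ y := by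
    have : ((b ^ L : ℕ) : ℝ) ≤ y := by linarith
    exact_mod_cast this
  have hy2 : 2 ≤ y := by
    have : ((b ^ L : ℕ) : ℝ) ≥ 0 := Nat.cast_nonneg _
    have : (2 : ℝ) ≤ y := by linarith
    exact_mod_cast this
  have hR1 : 1 ≤ R := by
    have : (0 : ℝ) < 2 * ((A + 2) / Real.log (1 + η) + 1) / θ := by positivity
    have : (0 : ℝ) < R := by linarith
    exact_mod_cast this
  have hz1 : 1 ≤ z := by omega
  obtain ⟨V, hV⟩ : ∃ V, V = VP P := ⟨_, rfl⟩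
  have hV0 : 0 < V := by rw [hV]; exact VP_pos hP
  have hV1 : V ≤ 1 := by rw [hV]; exact VP_le hP
  have hVL : 1 / (k : ℝ) ^ 2 ≤ V := by rw [hV]; exact hG3 k b3 y z hyz hz1 hz P hP
  obtain ⟨m, hm⟩ : ∃ m : ℝ, m = (S.card : ℝ) := ⟨_, rfl⟩
  rw [← hm] at hSc hS5
  have hm0 : 0 < m := lt_of_lt_of_le (by positivity) hS5
  have hRy : 2 ≤ R * y := by nlinarith
  obtain ⟨n, hn⟩ : ∃ n, R * y / 2 = n + 1 := ⟨R * y / 2 - 1, by omega⟩
  have hn6 : 2 * (n + 1) ≤ R * y := by omega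
  have hpow : 2 * Cr R * (X : ℝ) ≤ (1 + η) ^ (n + 1) * S.card := by
    have hC0 := Cr_pos R
    have h1 : 2 * Cr R * (k : ℝ) ^ A ≤ (1 + η) ^ (n + 1) := by
      have h2 : ((n + 1 : ℕ) : ℝ) ≥ (R : ℝ) * y / 2 - 1 := by
        have : R * y < 2 * (n + 1) + 2 := by omega
        have h3 : (R : ℝ) * y < 2 * ((n + 1 : ℕ) : ℝ) + 2 := by exact_mod_cast this
        linarith
      have h3 : (R : ℝ) * y / 2 - 1 ≥ (R * θ / 2 - 1) * lk := by
        have h0 : (R : ℝ) * (θ * lk) ≤ R * y := mul_le_mul_of_nonneg_left hy (Nat.cast_nonneg _)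
        have h1 : ((R : ℝ) * θ / 2 - 1) * lk = (R * (θ * lk)) / 2 - lk := by ring
        rw [h1]
        linarith
      have h4 : (A + 2) / Real.log (1 + η) ≤ R * θ / 2 - 1 := by
        rw [div_le_iff₀ hθ] at hR
        linarith
      have h5 : (A + 2 : ℝ) ≤ (R * θ / 2 - 1) * Real.log (1 + η) := by
        rwa [div_le_iff₀ hlη] at h4
      have h6 : Real.log (2 * Cr R * (k : ℝ) ^ A) ≤ ((n + 1 : ℕ) : ℝ) * Real.log (1 + η) := by
        rw [Real.log_mul (by positivity) (by positivity), Real.log_pow, ← hlk]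
        calc Real.log (2 * Cr R) + A * lk ≤ lk + A * lk := by linarith
          _ ≤ (A + 2) * lk := by linarith
          _ ≤ ((R * θ / 2 - 1) * Real.log (1 + η)) * lk := by gcongr
          _ = ((R * θ / 2 - 1) * lk) * Real.log (1 + η) := by ring
          _ ≤ ((n + 1 : ℕ) : ℝ) * Real.log (1 + η) := by gcongr; linarith
      rw [← Real.log_pow] at h6
      exact (Real.log_le_log_iff (by positivity) (by positivity)).1 h6
    rw [← hm]
    calc 2 * Cr R * (X : ℝ) ≤ 2 * Cr R * (m * (k : ℝ) ^ A) := by gcongr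
      _ = 2 * Cr R * (k : ℝ) ^ A * m := by ring
      _ ≤ _ := by gcongr
  obtain ⟨Pr, hPr⟩ : ∃ Pr : ℕ → ℕ → Prop, ∀ s v, Pr s v ↔ (∀ q ∈ P, ¬ (q : ℤ) ∣ α * (v : ℕ) + β s) := ⟨_, fun _ _ => Iff.rfl⟩
  obtain ⟨r, hr⟩ : ∃ r : ℝ, r = 1 / (k : ℝ) ^ 5 := ⟨_, rfl⟩
  have c1 : ∀ s ∈ S, V - r ≤ ∑ v ∈ (range (b ^ k)).filter (fun v => Pr s v), p v := by
    intro s _
    have := hG1 k b1 p hp y z hbLy hz1 hz P hP α (β s) hα
    have e1 : (range (b ^ k)).filter (fun v => Pr s v) = (range (b ^ k)).filter (fun v : ℕ => ∀ q ∈ P, ¬ (q : ℤ) ∣ α * v + β s) := by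
      ext v
      rw [mem_filter, mem_filter, hPr]
    rw [e1, hV, hr]
    exact this
  have c2 : ∀ s ∈ S, ∀ t ∈ S.erase s, ∑ v ∈ (range (b ^ k)).filter (fun v => Pr s v ∧ Pr t v), p v ≤ V ^ 2 * Pool.Agent.Y877.SX.FF y z s t + r := by
    intro s hs t ht
    have := hG2 k b2 p hp y z hbLy hz1 hz P hP α (β s) (β t) (Nat.dist s t * (s + t)) hα (by
      intro q _ v h1 h2
      exact hβ s hs t (mem_of_mem_erase ht) q v h1 h2)
    have e1 : (range (b ^ k)).filter (fun v => Pr s v ∧ Pr t v) = (range (b ^ k)).filter (fun v : ℕ =>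
        (∀ q ∈ P, ¬ (q : ℤ) ∣ α * v + β s) ∧ (∀ q ∈ P, ¬ (q : ℤ) ∣ α * v + β t)) := by
      ext v
      rw [mem_filter, mem_filter, hPr, hPr]
    rw [e1, hV, hr]
    refine this.trans ?_
    have h5 : fd y z (Nat.dist s t * (s + t)) ≤ Pool.Agent.Y877.SX.FF y z s t := fd_mul _ _ _ _
    have h6 : VP P ^ 2 * fd y z (Nat.dist s t * (s + t)) ≤ VP P ^ 2 * Pool.Agent.Y877.SX.FF y z s t :=
      mul_le_mul_of_nonneg_left h5 (by positivity)
    linarith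
  have c3 : ∀ s ∈ S, ∑ t ∈ S.erase s, Pool.Agent.Y877.SX.FF y z s t ≤ (1 + η) * m := fun s hs => by
    have := FF_sumR R y z n X (by omega) hn6 S hS η hη0' hpow s hs
    rwa [← hm] at this
  have hr0 : 0 ≤ r := by rw [hr]; positivity
  have key := chebW2 S (range (b ^ k)) Pr p (hcls.nonneg _ _ hp) (hcls.sum _ _ hp) V η δ r m (Pool.Agent.Y877.SX.FF y z) hV0 hV1 hδ hm.symm hr0 c1 c2 c3
  have e2 : ∑ v ∈ range (b ^ k), (if δ * (S.card * VP P) < |((S.filter (fun s => ∀ q ∈ P, ¬ (q : ℤ) ∣ α * (v : ℕ) + β s)).card : ℝ) -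
      S.card * VP P| then p v else 0) =
      ∑ v ∈ range (b ^ k), (if δ * (m * V) < |((S.filter (fun s => Pr s v)).card : ℝ) - m * V| then p v else 0) := by
    apply sum_congr rfl
    intro v _
    have e3 : S.filter (fun s => ∀ q ∈ P, ¬ (q : ℤ) ∣ α * (v : ℕ) + β s) = S.filter (fun s => Pr s v) := by
      ext s
      rw [mem_filter, mem_filter, hPr]
    rw [e3, ← hm, ← hV]
  rw [e2]
  obtain ⟨cnt, hcnt⟩ : ∃ cnt, cnt = ∑ v ∈ range (b ^ k), (if δ * (m * V) < |((S.filter (fun s => Pr s v)).card : ℝ) - m * V|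
    then p v else 0) := ⟨_, rfl⟩
  rw [← hcnt] at key ⊢
  have hmV : 0 < m * V := by positivity
  have hV4 : 1 / (k : ℝ) ^ 4 ≤ V ^ 2 := by
    have := pow_le_pow_left₀ (by positivity) hVL 2
    rw [div_pow, one_pow, ← pow_mul] at this
    exact this
  have hc : 3 ≤ ε / 4 * δ ^ 2 * k := by
    rw [div_le_iff₀ (by positivity)] at hx3'
    linarith
  have k1 : m ≤ ε / 4 * δ ^ 2 * (m * V) ^ 2 := by
    have h3 : 1 ≤ ε / 4 * δ ^ 2 * (m * V ^ 2) := by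
      have h4 : (k : ℝ) ≤ m * V ^ 2 := by
        calc (k : ℝ) = (k : ℝ) ^ 5 * (1 / (k : ℝ) ^ 4) := by field_simp
          _ ≤ m * V ^ 2 := mul_le_mul hS5 hV4 (by positivity) hm0.le
      have h5 : ε / 4 * δ ^ 2 * k ≤ ε / 4 * δ ^ 2 * (m * V ^ 2) := mul_le_mul_of_nonneg_left h4 (by positivity)
      linarith
    calc m = m * 1 := by ring
      _ ≤ m * (ε / 4 * δ ^ 2 * (m * V ^ 2)) := mul_le_mul_of_nonneg_left h3 hm0.le
      _ = _ := by ring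
  have k2 : 3 * (m ^ 2 * r) ≤ ε / 4 * δ ^ 2 * (m * V) ^ 2 := by
    have h2 : 3 * r ≤ ε / 4 * δ ^ 2 * V ^ 2 := by
      calc 3 * r ≤ (ε / 4 * δ ^ 2 * k) * r := mul_le_mul_of_nonneg_right hc hr0
        _ = ε / 4 * δ ^ 2 * (1 / (k : ℝ) ^ 4) := by rw [hr]; field_simp
        _ ≤ _ := mul_le_mul_of_nonneg_left hV4 (by positivity)
    calc 3 * (m ^ 2 * r) = m ^ 2 * (3 * r) := by ring
      _ ≤ m ^ 2 * (ε / 4 * δ ^ 2 * V ^ 2) := mul_le_mul_of_nonneg_left h2 (by positivity)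
      _ = _ := by ring
  have k3 : cnt * (δ * (m * V)) ^ 2 ≤ ε * (δ * (m * V)) ^ 2 := by
    refine key.trans ?_
    have h1 : η * (m * V) ^ 2 = ε / 2 * δ ^ 2 * (m * V) ^ 2 := by rw [hη]; ring
    have h2 : ε * (δ * (m * V)) ^ 2 = ε / 2 * δ ^ 2 * (m * V) ^ 2 + ε / 4 * δ ^ 2 * (m * V) ^ 2 +
      ε / 4 * δ ^ 2 * (m * V) ^ 2 := by ring
    rw [h1, h2]
    linarith
  exact le_of_mul_le_mul_right k3 (by positivity)

end Pool.Agent.Run7.h672.XC
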