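import Pool.Agent.N625.PT.X11
import Pool.Agent.Run7.h672.XC.X10

set_option autoImplicit false

/-! The theorems of `Pool.Agent.N625.PT.X11` (starting library, exchangeable blocks) for any class of laws with small exponential
sums: the text is that of the starting library, with the hypothesis replaced by `RCls`. -/

namespace Pool.Agent.Run7.h672.XC
open Pool.Agent.N625.PT
open Finset
open Pool.Agent.Y885 (TLaw)
open Pool.Agent.H373R2.T7 (pz mem_pz Vz Vz_pos Vz_le_one ev_L' lamI lamzI lamz)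
open Pool.Agent.Y877.SX (mid Vm mem_mid Vm_pos Vz_split primorial_le_log)

set_option maxHeartbeats 4000000 in
open Classical in
/-- random multiples of a small primorial: sums and differences with the elements of an arbitrary dense set of integers free
of small primes, asymptotic formula -/
theorem law2 {b L T : ℕ} {𝒞 : ℕ → (ℕ → ℝ) → Prop} (hcls : RCls b L T 𝒞) (κ : ℤ) (hκ : κ ≠ 0)
    (B J A C K₁ : ℕ) (θ : ℝ) (hθ : 0 < θ) (ε : ℝ) (hε : 0 < ε) (hε1 : ε ≤ 1) : ∃ k₀ : ℕ, ∀ k : ℕ, k₀ ≤ k →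
    ∀ p, 𝒞 k p → ∀ y : ℕ, θ * Real.log k ≤ y → y ≤ K₁ * Real.log k → ∀ c : ℤ, |c| ≤ B * (b : ℤ) ^ k →
    ∀ h : ℕ, 1 ≤ h → h ≤ k ^ J → ∀ X : ℕ, b ^ k ≤ X * k ^ C → X ≤ b ^ k * k ^ C →
    ∀ S : Finset ℕ, S ⊆ Icc 1 X → (∀ s ∈ S, s.Coprime (primorial y * h)) → (X : ℝ) ≤ S.card * (k : ℝ) ^ A → ∀ σ : ℤ, (σ = 1 ∨ σ = -1) →
    ∑ v ∈ range (b ^ k), (if (∀ s ∈ S, 0 < ((primorial y * h : ℕ) : ℤ) * (c + κ * (v : ℕ)) + σ * (s : ℕ)) ∧
      ε * (S.card / (Vz y * (k * Real.log b))) <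
      |((S.filter (fun s => (((primorial y * h : ℕ) : ℤ) * (c + κ * (v : ℕ)) + σ * (s : ℕ)).toNat.Prime)).card : ℝ) -
      S.card / (Vz y * (k * Real.log b))| then p v else 0) ≤ ε := by
  have hb := hcls.two
  have hL := hcls.one
  obtain ⟨δ, hδ⟩ : ∃ δ, δ = ε / 8 := ⟨_, rfl⟩
  have hδ0 : 0 < δ := by rw [hδ]; positivity
  have hδ8 : δ ≤ 1 / 8 := by rw [hδ]; linarith
  have hrough := rough_law2 hcls A δ δ hδ0 hδ0 θ hθ
  obtain ⟨J₁, hJ₁⟩ : ∃ J₁, J₁ = J + 2 * K₁ := ⟨_, rfl⟩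
  obtain ⟨J₂, hJ₂⟩ : ∃ J₂, J₂ = J₁ + C := ⟨_, rfl⟩
  obtain ⟨e₀, he₀⟩ : ∃ e₀, e₀ = Mf b L κ + B + κ.natAbs + 4 := ⟨_, rfl⟩
  obtain ⟨W, hW⟩ : ∃ W, W = 3 * J₂ + e₀ := ⟨_, rfl⟩
  obtain ⟨U, hU⟩ : ∃ U, U = J₂ + A + C + 1 := ⟨_, rfl⟩
  obtain ⟨cT, m₀, hlaw⟩ := hcls.tlaw κ hκ W (2 * U + 6)
  obtain ⟨B', hB'⟩ := tl_sgn b 15 cT hb (by norm_num) U
  obtain ⟨k1, hk1⟩ := hB' (B' + 2)
  obtain ⟨k2, hk2⟩ := hrough (2 * (B' + 2))
  obtain ⟨w, hw⟩ : ∃ w, w = 2 * (J₂ + A + C + 3) + A + C + 2 * (B' + 2) + 10 := ⟨_, rfl⟩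
  obtain ⟨k3, hk3⟩ := pow_le_pow_digits b hb w
  obtain ⟨Γ, hΓ⟩ : ∃ Γ : ℝ, Γ = (b : ℝ) ^ (J₂ + e₀) := ⟨_, rfl⟩
  obtain ⟨k4, hk4⟩ := exists_nat_ge (8 * Γ / δ ^ 2)
  obtain ⟨k5, hk5⟩ := ev_L' (max 1 ((κ.natAbs + 1) / θ))
  obtain ⟨W', hW'⟩ : ∃ W', W' = W + 2 * (A + C + 3) := ⟨_, rfl⟩
  obtain ⟨k6, hk6⟩ := ev4 (max (2 * (K₁ : ℝ)) (W' / δ))
  obtain ⟨k8, hk8⟩ := VP_up J θ δ hθ hδ0
  obtain ⟨k7, hk7⟩ := exists_nat_ge ((1 + W) * Real.log b)
  refine ⟨max (max (max m₀ k1) (max k2 k3)) (max (max k4 k5) (max (max k6 k7) (max k8 3))), fun k hk p hp y hy1 hy2 c hc h hh1 hhJ X hX1 hX2 S hS hSp hSA σ hσ => ?_⟩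
  have b1 : m₀ ≤ k := by omega
  have b2 : k1 ≤ k := by omega
  have b3 : k2 ≤ k := by omega
  have b4 := hk3 k (by omega)
  have b5 := hk5 k (by omega)
  obtain ⟨b6, b6'⟩ := hk6 k (by omega)
  have b7 : (1 + W) * Real.log b ≤ k := hk7.trans (by exact_mod_cast (by omega : k7 ≤ k))
  have b8 : 8 * Γ / δ ^ 2 ≤ k := hk4.trans (by exact_mod_cast (by omega : k4 ≤ k))
  have b9 : 3 ≤ k := by omega
  have hbr : (2 : ℝ) ≤ b := by exact_mod_cast hb
  have hb0 : (0 : ℝ) < b := by linarith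
  have hkr : (3 : ℝ) ≤ k := by exact_mod_cast b9
  have hk0 : (0 : ℝ) < k := by linarith
  have hk1r : (1 : ℝ) ≤ k := by linarith
  obtain ⟨lk, hlk⟩ : ∃ lk, lk = Real.log k := ⟨_, rfl⟩
  rw [← hlk] at hy1 hy2 b5 b6 b6'
  have hlkκ : (κ.natAbs : ℝ) + 1 ≤ θ * lk := by
    have h1 : ((κ.natAbs : ℝ) + 1) / θ ≤ lk := (le_max_right _ _).trans b5
    rw [div_le_iff₀ hθ] at h1
    linarith
  have hlogb : 0.69 < Real.log b := by
    have := Real.log_two_gt_d9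
    have := Real.log_le_log (by norm_num) hbr
    linarith
  have hl4 : lk ≤ lk ^ 4 := le_self_pow₀ b6' (by norm_num)
  have hlk2 : 2 * K₁ * lk ≤ k := by
    refine le_trans ?_ b6
    have g1 : 2 * (K₁ : ℝ) ≤ max (2 * (K₁ : ℝ)) (W' / δ) := le_max_left _ _
    exact mul_le_mul g1 hl4 (by linarith) (le_trans (by positivity) g1)
  have hlk1 : 0 ≤ lk := by linarith [(le_max_left _ _).trans b5]
  have hlkW' : W' * lk ≤ δ * k := by
    have g1 : (W' : ℝ) / δ ≤ max (2 * (K₁ : ℝ)) (W' / δ) := le_max_right _ _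
    have g2 : (W' : ℝ) / δ * lk ≤ k := le_trans (mul_le_mul g1 hl4 (by linarith) (le_trans (by positivity) g1)) b6
    have g3 := mul_le_mul_of_nonneg_left g2 hδ0.le
    refine le_trans (le_of_eq ?_) g3
    field_simp
  have hW'r : (W' : ℝ) = W + 2 * (A + C + 3) := by rw [hW']; push_cast; ring
  have hlkW : W * lk ≤ δ * k := by
    refine le_trans ?_ hlkW'
    apply mul_le_mul_of_nonneg_right _ hlk1
    rw [hW'r]
    have : (0 : ℝ) ≤ 2 * (A + C + 3) := by positivity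
    linarith
  have hlkZ : 2 * (A + C + 3 : ℝ) * lk ≤ δ * k := by
    refine le_trans ?_ hlkW'
    apply mul_le_mul_of_nonneg_right _ hlk1
    rw [hW'r]
    have : (0 : ℝ) ≤ W := Nat.cast_nonneg _
    linarith
  -- the number of digits
  obtain ⟨e, he⟩ : ∃ e, e = ex b J₂ e₀ k := ⟨_, rfl⟩
  obtain ⟨K, hK⟩ : ∃ K, K = k + e := ⟨_, rfl⟩
  have heW : (e : ℝ) ≤ W * lk := by
    rw [he, hW, hlk]
    exact ex_le b J₂ e₀ hb k b9
  have hKk : k ≤ K := by omega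
  have hKr : (K : ℝ) ≤ (1 + δ) * k := by
    rw [hK]
    push_cast
    linarith
  have hK1 : (1 : ℝ) ≤ K := by exact_mod_cast (by omega : 1 ≤ K)
  have hlogK : Real.log ((b ^ K : ℕ) : ℝ) = K * Real.log b := by
    push_cast
    rw [Real.log_pow]
  have hlogK1 : 2 ≤ Real.log ((b ^ K : ℕ) : ℝ) := by
    rw [hlogK]
    have : (3 : ℝ) ≤ K := by exact_mod_cast (by omega : 3 ≤ K)
    nlinarith
  have hlogK2 : Real.log ((b ^ K : ℕ) : ℝ) ≤ (k : ℝ) ^ 2 := by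
    rw [hlogK]
    have hlkk : lk ≤ k := by
      rw [hlk]
      exact (Real.log_le_sub_one_of_pos hk0).trans (by linarith)
    have g1 : (K : ℝ) ≤ (1 + W) * k := by
      rw [hK]
      push_cast
      have : (W : ℝ) * lk ≤ W * k := mul_le_mul_of_nonneg_left hlkk (Nat.cast_nonneg _)
      linarith
    calc (K : ℝ) * Real.log b ≤ ((1 + W) * k) * Real.log b := mul_le_mul_of_nonneg_right g1 (by linarith)
      _ = ((1 + W) * Real.log b) * k := by ring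
      _ ≤ k * k := mul_le_mul_of_nonneg_right b7 hk0.le
      _ = _ := (sq _).symm
  have hlogK3 : k * 0.69 ≤ Real.log ((b ^ K : ℕ) : ℝ) := by
    rw [hlogK]
    have : (k : ℝ) ≤ K := by exact_mod_cast hKk
    nlinarith
  have hlogK4 : Real.log ((b ^ K : ℕ) : ℝ) ≤ (1 + δ) * (k * Real.log b) := by
    rw [hlogK]
    have := mul_le_mul_of_nonneg_right hKr (by linarith : 0 ≤ Real.log b)
    linarith
  obtain ⟨LK, hLK⟩ : ∃ LK, LK = Real.log ((b ^ K : ℕ) : ℝ) := ⟨_, rfl⟩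
  rw [← hLK] at hlogK1 hlogK2 hlogK3 hlogK4
  -- z
  obtain ⟨z, hzd⟩ : ∃ z, z = ⌈LK ^ (B' + 1)⌉₊ := ⟨_, rfl⟩
  have hz1 : LK ^ (B' + 1) ≤ z := by rw [hzd]; exact Nat.le_ceil _
  have hz1' : LK ^ B' ≤ z := (pow_le_pow_right₀ (by linarith) (by omega)).trans hz1
  have hz2 : (z : ℝ) ≤ LK ^ (B' + 2) := by
    have h1 : (z : ℝ) < LK ^ (B' + 1) + 1 := by rw [hzd]; exact Nat.ceil_lt_add_one (by positivity)
    have h2 : LK ^ (B' + 2) = LK ^ (B' + 1) * LK := pow_succ _ _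
    have h3 : 1 ≤ LK ^ (B' + 1) := one_le_pow₀ (by linarith)
    have h4 : LK ^ (B' + 1) * 2 ≤ LK ^ (B' + 1) * LK := mul_le_mul_of_nonneg_left hlogK1 (by linarith)
    rw [h2]
    linarith
  have hz3 : (z : ℝ) ≤ (k : ℝ) ^ (2 * (B' + 2)) := by
    rw [pow_mul]
    exact hz2.trans (pow_le_pow_left₀ (by linarith) hlogK2 _)
  have hzL : LK ≤ z := by
    have : LK ≤ LK ^ (B' + 1) := le_self_pow₀ (by linarith) (by omega)
    exact this.trans hz1
  have hyz : y ≤ z := by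
    have : (y : ℝ) ≤ z := by linarith
    exact_mod_cast this
  have hyκ : κ.natAbs < y := by
    have : (κ.natAbs : ℝ) < y := by linarith
    exact_mod_cast this
  -- the multiplier
  obtain ⟨M, hM⟩ : ∃ M, M = primorial y := ⟨_, rfl⟩
  have hM1 : 1 ≤ M := by rw [hM]; exact primorial_pos y
  have hMk : M ≤ k ^ (2 * K₁) := by
    have : (M : ℝ) ≤ (k : ℝ) ^ (2 * K₁) := by
      rw [hM]
      apply primorial_le_log K₁ y (k : ℝ) (by linarith [Real.exp_one_lt_d9])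
      rw [← hlk]
      exact hy2
    exact_mod_cast this
  rw [← hM]
  obtain ⟨h', hh'⟩ : ∃ h', h' = M * h := ⟨_, rfl⟩
  rw [← hh']
  have hh'1 : 1 ≤ h' := by rw [hh']; exact Nat.mul_pos hM1 hh1
  have hh'J : h' ≤ k ^ J₁ := by
    rw [hh', hJ₁, Nat.add_comm, pow_add]
    exact Nat.mul_le_mul hMk hhJ
  -- the primes
  obtain ⟨P, hPd⟩ : ∃ P, P = (mid y z).filter (fun q : ℕ => ¬ (q : ℤ) ∣ (h' : ℤ) * κ) := ⟨_, rfl⟩
  have hP : P ⊆ mid y z := by rw [hPd]; exact filter_subset _ _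
  have hPα : ∀ q ∈ P, ¬ (q : ℤ) ∣ (h' : ℤ) * κ := fun q hq => by
    rw [hPd, mem_filter] at hq
    exact hq.2
  have hPd' : ∀ q : ℕ, q.Prime → q ≤ z → q ∉ P → q ∣ h' := by
      intro q hq hqz hqP
      by_cases hqy : y < q
      · have h1 : (q : ℤ) ∣ (h' : ℤ) * κ := by
          by_contra hcon
          apply hqP
          rw [hPd, mem_filter]
          exact ⟨mem_mid.2 ⟨hqy, hqz, hq⟩, hcon⟩
        rcases (Nat.prime_iff_prime_int.1 hq).dvd_or_dvd h1 with h2 | h2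
        · exact_mod_cast h2
        · exfalso
          have h3 : q ∣ κ.natAbs := Int.natCast_dvd.1 h2
          have h4 := Nat.le_of_dvd (Int.natAbs_pos.2 hκ) h3
          omega
      · rw [hh', hM]
        exact (hq.dvd_primorial_iff.2 (by omega)).mul_right _
  have hPc : ∀ v : ℕ, ∀ q : ℕ, q.Prime → q ≤ z → q ∉ P → (q : ℤ) ∣ (h' : ℤ) * (c + κ * (v : ℕ)) := by
    intro v q hq hqz hqP
    exact (by exact_mod_cast hPd' q hq hqz hqP : (q : ℤ) ∣ (h' : ℤ)).mul_right _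
  have hSq : ∀ s ∈ S, ∀ q : ℕ, q.Prime → q ≤ z → q ∉ P → ¬ q ∣ s := by
    intro s hs q hq hqz hqP hqs
    exact hq.one_lt.ne' (Nat.dvd_one.1 (by
      have h1 := Nat.dvd_gcd hqs (hPd' q hq hqz hqP)
      rwa [hh', hM, Nat.Coprime.gcd_eq_one (hSp s hs)] at h1))
  have hPup : VP P ≤ (1 + δ) * Vm y z := by
    apply hk8 k (by omega) y z (by rw [← hlk]; exact hy1) h hh1 hhJ P hP
    intro q hq hqP
    obtain ⟨q1, q2, q3⟩ := mem_mid.1 hq
    have h1 := hPd' q q3 q2 hqP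
    rw [hh', hM, q3.dvd_mul] at h1
    rcases h1 with h1 | h1
    · exfalso
      have := (q3.dvd_primorial_iff.1 h1)
      omega
    · exact h1
  -- sizes
  have hbk1 : (1 : ℝ) ≤ (b : ℝ) ^ k := one_le_pow₀ (by linarith)
  have hbk0 : (0 : ℝ) < (b : ℝ) ^ k := by linarith
  have hkw : (k : ℝ) ^ w ≤ (b : ℝ) ^ k := by exact_mod_cast b4
  have hX1r : (b : ℝ) ^ k ≤ X * (k : ℝ) ^ C := by exact_mod_cast hX1
  have hscard : (b : ℝ) ^ k ≤ S.card * (k : ℝ) ^ (A + C) := by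
    calc (b : ℝ) ^ k ≤ X * (k : ℝ) ^ C := hX1r
      _ ≤ (S.card * (k : ℝ) ^ A) * (k : ℝ) ^ C := mul_le_mul_of_nonneg_right hSA (by positivity)
      _ = _ := by rw [pow_add]; ring
  have hΓ1 : 1 ≤ Γ := by rw [hΓ]; exact one_le_pow₀ (by linarith)
  have hkδ : 8 * Γ ≤ δ ^ 2 * k := by
    rw [div_le_iff₀ (by positivity)] at b8
    linarith
  have hδ2 : δ ^ 2 ≤ δ := by nlinarith
  have hkδ' : 8 * Γ ≤ δ * k := hkδ.trans (mul_le_mul_of_nonneg_right hδ2 hk0.le)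
  have hSbig : (k : ℝ) ^ (2 * (B' + 2) + 9) ≤ S.card := by
    have h1 : (k : ℝ) ^ (2 * (B' + 2) + 9) * (k : ℝ) ^ (A + C) ≤ S.card * (k : ℝ) ^ (A + C) := by
      refine le_trans ?_ (hkw.trans hscard)
      rw [← pow_add]
      exact pow_le_pow_right₀ hk1r (by omega)
    exact le_of_mul_le_mul_right h1 (by positivity)
  obtain ⟨m, hm⟩ : ∃ m : ℝ, m = S.card := ⟨_, rfl⟩
  have hmbig1 : (b : ℝ) ^ k ≤ m * (k : ℝ) ^ (A + C) := by
    rw [hm]
    exact hscard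
  have hm5 : (k : ℝ) ^ 5 ≤ m := by
    rw [hm]
    exact (pow_le_pow_right₀ hk1r (by omega)).trans hSbig
  have hm0 : 0 < m := lt_of_lt_of_le (by positivity) hm5
  have hmbig : (b : ℝ) ^ k ≤ 2 * m * (k : ℝ) ^ (A + C) := by
    refine hmbig1.trans ?_
    apply mul_le_mul_of_nonneg_right _ (by positivity)
    linarith
  -- the small values
  obtain ⟨Zr, hZr⟩ : ∃ Zr : ℝ, Zr = (b : ℝ) ^ k / (k : ℝ) ^ (A + C + 3) := ⟨_, rfl⟩
  have hZr1 : 1 ≤ Zr := by
    rw [hZr, one_le_div (by positivity)]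
    exact (pow_le_pow_right₀ hk1r (by omega)).trans hkw
  obtain ⟨Z, hZ⟩ : ∃ Z, Z = ⌈Zr⌉₊ := ⟨_, rfl⟩
  have hZ1 : Zr ≤ Z := by rw [hZ]; exact Nat.le_ceil _
  have hZ2 : (Z : ℝ) ≤ 2 * Zr := by
    have h1 : (Z : ℝ) < Zr + 1 := by rw [hZ]; exact Nat.ceil_lt_add_one (by linarith)
    linarith
  have hZ3 : 1 ≤ Z := by
    have : (1 : ℝ) ≤ Z := hZr1.trans hZ1
    exact_mod_cast this
  have hlb0 : 0 < Real.log b := by linarith
  have hZlog : (1 - δ) * (k * Real.log b) ≤ Real.log Z := by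
    have h1 : Real.log Zr ≤ Real.log Z := Real.log_le_log (by linarith) hZ1
    refine le_trans ?_ h1
    rw [hZr, Real.log_div (by positivity) (by positivity), Real.log_pow, Real.log_pow, ← hlk]
    push_cast
    have h2 : δ * k * 0.5 ≤ δ * k * Real.log b := mul_le_mul_of_nonneg_left (by linarith) (by positivity)
    linarith
  have hlbk : Real.log b ≤ k := by
    have : (0 : ℝ) ≤ W * Real.log b := by positivity
    linarith
  have hZS : (Z : ℝ) * (Vz y * (k * Real.log b)) ≤ δ * m := by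
    have h1 : Vz y * (k * Real.log b) ≤ (k : ℝ) ^ 2 := by
      have g1 : (k : ℝ) * Real.log b ≤ k ^ 2 := by
        rw [sq]
        exact mul_le_mul_of_nonneg_left hlbk hk0.le
      have g2 : Vz y * (k * Real.log b) ≤ 1 * (k * Real.log b) := mul_le_mul_of_nonneg_right (Vz_le_one y) (by positivity)
      linarith
    have h2 : (Z : ℝ) * (Vz y * (k * Real.log b)) ≤ (2 * Zr) * (k : ℝ) ^ 2 :=
      mul_le_mul hZ2 h1 (mul_nonneg (Vz_pos y).le (by positivity)) (by linarith)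
    refine h2.trans ?_
    have h3 : ((2 * Zr) * (k : ℝ) ^ 2) * (k : ℝ) ^ (A + C + 1) ≤ (δ * m) * (k : ℝ) ^ (A + C + 1) := by
      have e : ((2 * Zr) * (k : ℝ) ^ 2) * (k : ℝ) ^ (A + C + 1) = 2 * (b : ℝ) ^ k := by
        rw [hZr, show A + C + 3 = 2 + (A + C + 1) by ring, pow_add (k : ℝ) 2]
        field_simp
      rw [e]
      calc 2 * (b : ℝ) ^ k ≤ (δ * k) * (b : ℝ) ^ k := mul_le_mul_of_nonneg_right (by linarith) hbk0.le
        _ ≤ (δ * k) * (m * (k : ℝ) ^ (A + C)) := mul_le_mul_of_nonneg_left hmbig1 (by positivity)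
        _ = _ := by rw [pow_succ]; ring
    exact le_of_mul_le_mul_right h3 (by positivity)
  have hbK : ((b ^ K : ℕ) : ℝ) ≤ (b : ℝ) ^ k * ((k : ℝ) ^ J₂ * Γ) := by
    have g1 : (b : ℝ) ^ (Nat.log b k) ≤ k := by exact_mod_cast Nat.pow_log_le_self b (by omega)
    have e1 : ((b ^ K : ℕ) : ℝ) = (b : ℝ) ^ k * (((b : ℝ) ^ (Nat.log b k)) ^ J₂ * Γ) := by
      rw [hΓ, hK, he]
      unfold ex
      push_cast
      rw [← pow_mul, ← pow_add, ← pow_add]
      congr 1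
      ring
    rw [e1]
    apply mul_le_mul_of_nonneg_left _ hbk0.le
    apply mul_le_mul_of_nonneg_right _ (by linarith)
    exact pow_le_pow_left₀ (by positivity) g1 _
  -- values
  have hbK2 : ((B : ℤ) + κ.natAbs + 3) * ((b : ℤ) ^ k * (k : ℤ) ^ J₂) ≤ (b : ℤ) ^ K := by
    have g1 : k ^ J₂ ≤ b ^ (J₂ * (Nat.log b k + 1)) := pow_ex b J₂ hb k
    have g2 : B + κ.natAbs + 3 ≤ b ^ e₀ := by
      have : e₀ < b ^ e₀ := Nat.lt_pow_self (by omega)
      omega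
    have g3 : (B + κ.natAbs + 3) * (b ^ k * k ^ J₂) ≤ b ^ K := by
      calc (B + κ.natAbs + 3) * (b ^ k * k ^ J₂) ≤ b ^ e₀ * (b ^ k * b ^ (J₂ * (Nat.log b k + 1))) :=
            Nat.mul_le_mul g2 (Nat.mul_le_mul_left _ g1)
        _ = b ^ K := by
            rw [hK, he]
            unfold ex
            rw [← pow_add, ← pow_add]
            congr 1
            ring
    exact_mod_cast g3
  have hYX : ∀ v ∈ range (b ^ k), (X : ℤ) + |(h' : ℤ) * (c + κ * (v : ℕ))| + 1 < (b : ℤ) ^ K := by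
    intro v hv
    rw [mem_range] at hv
    refine lt_of_lt_of_le ?_ hbK2
    have g0 : (0 : ℤ) ≤ (v : ℤ) := Int.natCast_nonneg _
    have g1 : (v : ℤ) ≤ (b : ℤ) ^ k := by exact_mod_cast hv.le
    have g2 : |c + κ * (v : ℤ)| ≤ ((B : ℤ) + κ.natAbs) * (b : ℤ) ^ k := by
      have q1 := abs_add_le c (κ * (v : ℤ))
      have q3 : |κ * (v : ℤ)| ≤ (κ.natAbs : ℤ) * (b : ℤ) ^ k := by
        rw [abs_mul, Int.abs_eq_natAbs κ, abs_of_nonneg g0]
        exact mul_le_mul_of_nonneg_left g1 (Int.natCast_nonneg _)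
      linarith
    have g3 : (h' : ℤ) ≤ (k : ℤ) ^ J₂ := by
      have : h' ≤ k ^ J₂ := hh'J.trans (Nat.pow_le_pow_right (by omega) (by omega))
      exact_mod_cast this
    have g4 : |(h' : ℤ) * (c + κ * (v : ℕ))| ≤ (k : ℤ) ^ J₂ * (((B : ℤ) + κ.natAbs) * (b : ℤ) ^ k) := by
      rw [abs_mul, Nat.abs_cast]
      exact mul_le_mul g3 g2 (abs_nonneg _) (by positivity)
    have g5 : (X : ℤ) ≤ (b : ℤ) ^ k * (k : ℤ) ^ J₂ := by
      have : X ≤ b ^ k * k ^ J₂ := hX2.trans (Nat.mul_le_mul_left _ (Nat.pow_le_pow_right (by omega) (by omega)))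
      exact_mod_cast this
    have g6 : (1 : ℤ) ≤ (b : ℤ) ^ k * (k : ℤ) ^ J₂ := by
      have : 0 < b ^ k * k ^ J₂ := by positivity
      exact_mod_cast this
    nlinarith
  have hXK : (X : ℤ) + 1 < (b : ℤ) ^ K := by
    have h1 := hYX 0 (mem_range.2 (by positivity))
    have h2 := abs_nonneg ((h' : ℤ) * (c + κ * ((0 : ℕ) : ℕ)))
    linarith
  -- the law
  have hlawk := hlaw k b1 e (by rw [← hlk]; exact heW) h' hh'1 (by
    refine (log_ex b J₁ (Mf b L κ) hb k h' (Mf_pos b L κ hκ) hh'1 hh'J).trans ?_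
    rw [he, he₀]
    unfold ex
    have : J₁ * (Nat.log b k + 1) ≤ J₂ * (Nat.log b k + 1) := Nat.mul_le_mul_right _ (by omega)
    omega) p hp c
  rw [← hK] at hlawk
  have hT := hk1 K (by omega) z (by rw [← hLK]; exact hz1') (by rw [← hLK]; exact hz2) (range (b ^ k)) p _ hlawk X hYX hXK
    (fun n => if n ∈ S then 1 else 0) (by
      intro n _
      split_ifs <;> norm_num) σ hσ
  have hR := hk2 k b3 p hp y z (by rw [← hlk]; exact hy1) hyz hz3 P hP X S hS hSA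
    (by rw [← hm]; exact hm5) ((h' : ℤ) * κ) (fun s => (h' : ℤ) * c + σ * (s : ℕ)) hPα (by
    intro s _ t _ q v h1 h2
    apply Dvd.dvd.mul_right
    apply dvd_dist
    have h3 := dvd_sub h1 h2
    have h4 : (h' : ℤ) * κ * (v : ℕ) + ((h' : ℤ) * c + σ * (s : ℕ)) - ((h' : ℤ) * κ * (v : ℕ) + ((h' : ℤ) * c + σ * (t : ℕ))) =
        σ * ((s : ℤ) - t) := by ring
    rw [h4] at h3
    rcases hσ with rfl | rfl
    · rwa [one_mul] at h3
    · rw [neg_one_mul] at h3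
      exact dvd_neg.1 h3)
  have hbKn : ((b ^ K : ℕ) : ℝ) / (K : ℝ) ^ U ≤ δ * (δ * m) := by
    have hKU : (k : ℝ) ^ U ≤ (K : ℝ) ^ U := pow_le_pow_left₀ hk0.le (by exact_mod_cast hKk) _
    rw [div_le_iff₀ (by positivity)]
    calc ((b ^ K : ℕ) : ℝ) ≤ (b : ℝ) ^ k * ((k : ℝ) ^ J₂ * Γ) := hbK
      _ ≤ (2 * m * (k : ℝ) ^ (A + C)) * ((k : ℝ) ^ J₂ * Γ) := mul_le_mul_of_nonneg_right hmbig (by positivity)
      _ = m * (k : ℝ) ^ (J₂ + A + C) * (2 * Γ) := by rw [add_assoc J₂, pow_add (k : ℝ) J₂]; ring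
      _ ≤ m * (k : ℝ) ^ (J₂ + A + C) * (δ ^ 2 * k) := by
          apply mul_le_mul_of_nonneg_left _ (by positivity)
          linarith
      _ = δ * (δ * m) * (k : ℝ) ^ U := by rw [hU, pow_succ]; ring
      _ ≤ _ := mul_le_mul_of_nonneg_left hKU (by positivity)
  have hpp : 2 * √((b ^ K : ℕ) : ℝ) * Real.log ((b ^ K : ℕ) : ℝ) ≤ δ * m := by
    rw [← hLK]
    have g1 : √((b ^ K : ℕ) : ℝ) ≤ √((b : ℝ) ^ k) * ((k : ℝ) ^ J₂ * Γ) := by
      have q1 : 1 ≤ (k : ℝ) ^ J₂ * Γ := one_le_mul_of_one_le_of_one_le (one_le_pow₀ hk1r) hΓ1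
      have q2 : √((b ^ K : ℕ) : ℝ) ≤ √((b : ℝ) ^ k * ((k : ℝ) ^ J₂ * Γ)) := Real.sqrt_le_sqrt hbK
      rw [Real.sqrt_mul hbk0.le] at q2
      have q3 : √((k : ℝ) ^ J₂ * Γ) ≤ (k : ℝ) ^ J₂ * Γ := by
        rw [Real.sqrt_le_left (by positivity)]
        exact le_self_pow₀ q1 (by norm_num)
      exact q2.trans (mul_le_mul_of_nonneg_left q3 (Real.sqrt_nonneg _))
    have g2 : (k : ℝ) ^ (J₂ + A + C + 3) ≤ √((b : ℝ) ^ k) := by
      apply Real.le_sqrt_of_sq_le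
      rw [← pow_mul]
      exact (pow_le_pow_right₀ hk1r (by omega)).trans hkw
    have hsq : √((b : ℝ) ^ k) * √((b : ℝ) ^ k) = (b : ℝ) ^ k := Real.mul_self_sqrt hbk0.le
    have hs0 : 0 ≤ √((b : ℝ) ^ k) := Real.sqrt_nonneg _
    -- the product
    have g3 : (2 * √((b ^ K : ℕ) : ℝ) * LK) * (2 * (k : ℝ) ^ (A + C)) ≤ δ * (b : ℝ) ^ k := by
      calc (2 * √((b ^ K : ℕ) : ℝ) * LK) * (2 * (k : ℝ) ^ (A + C))
          ≤ (2 * (√((b : ℝ) ^ k) * ((k : ℝ) ^ J₂ * Γ)) * (k : ℝ) ^ 2) * (2 * (k : ℝ) ^ (A + C)) := by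
            apply mul_le_mul_of_nonneg_right _ (by positivity)
            apply mul_le_mul _ hlogK2 (by linarith) (by positivity)
            exact mul_le_mul_of_nonneg_left g1 (by norm_num)
        _ = √((b : ℝ) ^ k) * ((k : ℝ) ^ (J₂ + A + C + 2) * (4 * Γ)) := by
            rw [show J₂ + A + C + 2 = J₂ + (A + C) + 2 by ring, pow_add (k : ℝ) (J₂ + (A + C)), pow_add (k : ℝ) J₂]
            ring
        _ ≤ √((b : ℝ) ^ k) * ((k : ℝ) ^ (J₂ + A + C + 2) * (δ * k)) := by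
            apply mul_le_mul_of_nonneg_left _ hs0
            apply mul_le_mul_of_nonneg_left _ (by positivity)
            linarith
        _ = δ * (√((b : ℝ) ^ k) * (k : ℝ) ^ (J₂ + A + C + 3)) := by
            rw [pow_succ (k : ℝ) (J₂ + A + C + 2)]
            ring
        _ ≤ δ * (√((b : ℝ) ^ k) * √((b : ℝ) ^ k)) := by
            apply mul_le_mul_of_nonneg_left _ hδ0.le
            exact mul_le_mul_of_nonneg_left g2 hs0
        _ = _ := by rw [hsq]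
    have g4 : (2 * √((b ^ K : ℕ) : ℝ) * LK) * (2 * (k : ℝ) ^ (A + C)) ≤ (δ * m) * (2 * (k : ℝ) ^ (A + C)) := by
      calc _ ≤ δ * (b : ℝ) ^ k := g3
        _ ≤ δ * (2 * m * (k : ℝ) ^ (A + C)) := mul_le_mul_of_nonneg_left hmbig hδ0.le
        _ = _ := by ring
    exact le_of_mul_le_mul_right g4 (by positivity)
  -- the bad events
  obtain ⟨Q1, hQ1⟩ : ∃ Q1 : ℕ → Prop, ∀ v, Q1 v ↔ (δ * (S.card * VP P) < |((S.filter (fun s => ∀ q ∈ P, ¬ (q : ℤ) ∣ (h' : ℤ) * κ * (v : ℕ) +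
    ((h' : ℤ) * c + σ * (s : ℕ)))).card : ℝ) - S.card * VP P|) := ⟨_, fun _ => Iff.rfl⟩
  obtain ⟨D, hD⟩ : ∃ D : ℕ → ℝ, ∀ v, D v = |∑ n ∈ Icc 1 X, (if n ∈ S then (1 : ℝ) else 0) *
    (lamI ((h' : ℤ) * (c + κ * (v : ℕ)) + σ * (n : ℕ)) - lamzI z ((h' : ℤ) * (c + κ * (v : ℕ)) + σ * (n : ℕ)))| := ⟨_, fun _ => rfl⟩
  have s1 : ∑ v ∈ range (b ^ k), (if Q1 v then p v else 0) ≤ δ := by
    refine le_trans (le_of_eq ?_) hR
    apply sum_congr rfl
    intro v _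
    by_cases hq : Q1 v
    · rw [if_pos hq, if_pos ((hQ1 v).1 hq)]
    · rw [if_neg hq, if_neg (fun h => hq ((hQ1 v).2 h))]
  have s2 : ∑ v ∈ range (b ^ k), (if δ * m < D v then p v else 0) ≤ δ := by
    have h1 : (∑ v ∈ range (b ^ k), (if δ * m < D v then p v else 0)) * (δ * m) ≤ δ * (δ * m) := by
      refine le_trans ?_ (hT.trans hbKn)
      rw [sum_mul]
      apply sum_le_sum
      intro v _
      rw [← hD]
      have hD0 : 0 ≤ D v := by rw [hD]; exact abs_nonneg _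
      split_ifs with hv
      · exact mul_le_mul_of_nonneg_left hv.le ((hcls.nonneg _ _ hp) v)
      · rw [zero_mul]
        exact mul_nonneg ((hcls.nonneg _ _ hp) v) hD0
    exact le_of_mul_le_mul_right h1 (by positivity)
  have hle2 : δ + δ ≤ ε := by rw [hδ]; linarith
  refine le_trans ?_ (le_trans (add_le_add s1 s2) hle2)
  rw [← sum_add_distrib]
  apply sum_le_sum
  intro v hv
  have hpv := (hcls.nonneg _ _ hp) v
  obtain ⟨Bad, hBad⟩ : ∃ Bad : Prop, Bad ↔ ((∀ s ∈ S, 0 < (h' : ℤ) * (c + κ * (v : ℕ)) + σ * (s : ℕ)) ∧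
      ε * (S.card / (Vz y * (k * Real.log b))) <
      |((S.filter (fun s => ((h' : ℤ) * (c + κ * (v : ℕ)) + σ * (s : ℕ)).toNat.Prime)).card : ℝ) -
      S.card / (Vz y * (k * Real.log b))|) := ⟨_, Iff.rfl⟩
  have hgoal : (if Bad then p v else 0) ≤ (if Q1 v then p v else 0) + (if δ * m < D v then p v else 0) := by
    by_cases hq1 : Q1 v
    · rw [if_pos hq1]
      have h1 : (if Bad then p v else 0) ≤ p v := by
        split_ifs
        · exact le_rfl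
        · exact hpv
      have h2 : 0 ≤ (if δ * m < D v then p v else 0) := by
        split_ifs
        · exact hpv
        · exact le_rfl
      linarith
    · by_cases hq2 : δ * m < D v
      · rw [if_neg hq1, if_pos hq2, zero_add]
        split_ifs
        · exact le_rfl
        · exact hpv
      · rw [if_neg hq1, if_neg hq2, add_zero]
        rw [if_neg]
        rw [hBad]
        rintro ⟨hpos, hfew⟩
        rw [hQ1] at hq1
        push Not at hq1 hq2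
        rw [hD] at hq2
        have hform : ∀ s : ℕ, (h' : ℤ) * κ * (v : ℕ) + ((h' : ℤ) * c + σ * (s : ℕ)) = (h' : ℤ) * (c + κ * (v : ℕ)) + σ * (s : ℕ) := by
          intro s
          ring
        simp_rw [hform] at hq1
        have hasm := assemble2 X y z δ hδ0 hδ8 hyz P hP hPup ((h' : ℤ) * (c + κ * (v : ℕ))) σ hσ S hS hSq
          (hPc v) hpos (b ^ K) (Nat.one_le_pow _ _ (by omega)) (by
            intro s hs
            have q1 := hYX v hv
            have q2 := (mem_Icc.1 (hS hs)).2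
            have q3 := le_abs_self ((h' : ℤ) * (c + κ * (v : ℕ)))
            have q4 : σ * (s : ℕ) ≤ X := by
              rcases hσ with rfl | rfl
              · rw [one_mul]; exact_mod_cast q2
              · rw [neg_one_mul]
                have : (0 : ℤ) ≤ (s : ℕ) := Int.natCast_nonneg _
                have : (0 : ℤ) ≤ (X : ℕ) := Int.natCast_nonneg _
                linarith
            push_cast
            linarith) (k * Real.log b) (by positivity) (by rw [← hLK]; exact hlogK4) Z hZ3 hZlog (by rw [← hm]; exact hZS)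
            (by rw [← hm]; exact hpp) hq1 (by rw [← hm]; exact hq2)
        have he8 : 8 * δ = ε := by rw [hδ]; ring
        rw [he8] at hasm
        linarith
  exact (by
    refine le_trans (le_of_eq ?_) hgoal
    by_cases hb : Bad
    · rw [if_pos hb, if_pos (hBad.1 hb)]
    · rw [if_neg hb, if_neg (fun h => hb (hBad.2 h))])

end Pool.Agent.Run7.h672.XC
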