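import Pool.Agent.N625.PT.X15
import Pool.Agent.Run7.h672.XC.X12

set_option autoImplicit false

/-! The theorems of `Pool.Agent.N625.PT.X15` (starting library, exchangeable blocks) for any class of laws with small exponential
sums: the text is that of the starting library, with the hypothesis replaced by `RCls`. -/

namespace Pool.Agent.Run7.h672.XC
open Pool.Agent.N625.PT
open Finset
open Pool.Agent.H373R2.T7 (pz mem_pz Vz Vz_pos Vz_le_one ev_L')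
open Pool.Agent.Y877.SX (fac_pos fac_le)

set_option maxHeartbeats 1000000 in
open Classical in
/-- all but the last number are primes, the last one is not -/
theorem exact_law {b L T : ℕ} {𝒞 : ℕ → (ℕ → ℝ) → Prop} (hcls : RCls b L T 𝒞) (r : ℕ) (hr : 1 ≤ r) (κ : Fin r → ℤ)
    (hκ : ∀ j, κ j ≠ 0) (B J A C K₁ : ℕ) (θ : ℝ) (hθ : 0 < θ) (ε : ℝ) (hε : 0 < ε) (hε1 : ε ≤ 1) :
    ∃ k₀ : ℕ, ∀ k : ℕ, k₀ ≤ k → ∀ p : Fin r → ℕ → ℝ, (∀ j, 𝒞 k (p j)) →
    ∀ y : ℕ, θ * Real.log k ≤ y → y ≤ K₁ * Real.log k → ∀ c : Fin r → ℤ, (∀ j, |c j| ≤ B * (b : ℤ) ^ k) →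
    ∀ h : Fin r → ℕ, (∀ j, 1 ≤ h j ∧ h j ≤ k ^ J) → ∀ X : ℕ, b ^ k ≤ X * k ^ C → X ≤ b ^ k * k ^ C →
    ∀ (I : Finset ℕ) (f : Fin r → ℕ → ℕ), (∀ j, Set.InjOn (f j) I) →
    (∀ j, ∀ i ∈ I, 1 ≤ f j i ∧ f j i ≤ X ∧ (f j i).Coprime (primorial y * h j)) → (X : ℝ) ≤ I.card * (k : ℝ) ^ A →
    ∀ σ : Fin r → ℤ, (∀ j, σ j = 1 ∨ σ j = -1) →
    ∑ v ∈ Fintype.piFinset (fun _ : Fin r => range (b ^ k)),
      (if (∀ j, ∀ i ∈ I, 0 < Nm y (h j) (c j) (κ j) (v j) + σ j * (f j i : ℕ)) →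
        |((I.filter (fun i => (∀ j : Fin r, (j : ℕ) + 1 < r → (Nm y (h j) (c j) (κ j) (v j) + σ j * (f j i : ℕ)).toNat.Prime) ∧
            ∀ j : Fin r, (j : ℕ) + 1 = r → ¬ (Nm y (h j) (c j) (κ j) (v j) + σ j * (f j i : ℕ)).toNat.Prime)).card : ℝ) -
          I.card / (Vz y * (k * Real.log b)) ^ (r - 1)| ≤ ε * (I.card / (Vz y * (k * Real.log b)) ^ (r - 1)) then 0 else ∏ j, p j (v j)) ≤ ε := by
  have hb := hcls.two
  have hL := hcls.one
  obtain ⟨k1, h1⟩ := tuple_law hcls r κ hκ B J A C K₁ θ hθ (ε / 4) (by linarith) (by linarith)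
  obtain ⟨k2, h2⟩ := Q_large b K₁ hb (4 / ε)
  refine ⟨max k1 k2, fun k hk p hp y hy1 hy2 c hc h hh X hX1 hX2 I f hinj hf hIA σ hσ => ?_⟩
  have b2 := h2 k (by omega) y hy2
  have h3 := h1 k (by omega) p hp y hy1 hy2 c hc h hh X hX1 hX2 I f hinj hf hIA σ hσ
  obtain ⟨Q, hQ⟩ : ∃ Q : ℝ, Q = Vz y * (k * Real.log b) := ⟨_, rfl⟩
  rw [← hQ] at b2 h3 ⊢
  have hQ0 : 0 < Q := lt_of_lt_of_le (by positivity) b2
  refine le_trans (sum_le_sum fun v _ => ?_) (h3.trans (by linarith))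
  have hw0 : 0 ≤ ∏ j, p j (v j) := prod_nonneg fun j _ => (hcls.nonneg _ _ (hp j)) _
  obtain ⟨G, hG⟩ : ∃ G : Prop, G ↔ ((∀ j, ∀ i ∈ I, 0 < Nm y (h j) (c j) (κ j) (v j) + σ j * (f j i : ℕ)) → ∀ t : ℕ, t ≤ r →
        |((I.filter (fun i => ∀ j : Fin r, (j : ℕ) < t → (Nm y (h j) (c j) (κ j) (v j) + σ j * (f j i : ℕ)).toNat.Prime)).card : ℝ) -
          I.card / Q ^ t| ≤ ε / 4 * (I.card / Q ^ t)) := ⟨_, Iff.rfl⟩
  obtain ⟨G', hG'⟩ : ∃ G' : Prop, G' ↔ ((∀ j, ∀ i ∈ I, 0 < Nm y (h j) (c j) (κ j) (v j) + σ j * (f j i : ℕ)) →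
        |((I.filter (fun i => (∀ j : Fin r, (j : ℕ) + 1 < r → (Nm y (h j) (c j) (κ j) (v j) + σ j * (f j i : ℕ)).toNat.Prime) ∧
            ∀ j : Fin r, (j : ℕ) + 1 = r → ¬ (Nm y (h j) (c j) (κ j) (v j) + σ j * (f j i : ℕ)).toNat.Prime)).card : ℝ) -
          I.card / Q ^ (r - 1)| ≤ ε * (I.card / Q ^ (r - 1))) := ⟨_, Iff.rfl⟩
  have himp : G → G' := by
    intro hg
    rw [hG] at hg
    rw [hG']
    intro hpos
    have g1 := hg hpos (r - 1) (by omega)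
    have g2 := hg hpos r le_rfl
    obtain ⟨m, hm⟩ : ∃ m : ℝ, m = I.card := ⟨_, rfl⟩
    rw [← hm] at g1 g2 ⊢
    have hm0 : 0 ≤ m := by rw [hm]; exact Nat.cast_nonneg _
    obtain ⟨A1, hA1⟩ : ∃ A1, A1 = I.filter (fun i => ∀ j : Fin r, (j : ℕ) < r - 1 → (Nm y (h j) (c j) (κ j) (v j) + σ j * (f j i : ℕ)).toNat.Prime) := ⟨_, rfl⟩
    obtain ⟨A2, hA2⟩ : ∃ A2, A2 = I.filter (fun i => ∀ j : Fin r, (j : ℕ) < r → (Nm y (h j) (c j) (κ j) (v j) + σ j * (f j i : ℕ)).toNat.Prime) := ⟨_, rfl⟩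
    obtain ⟨A3, hA3⟩ : ∃ A3, A3 = I.filter (fun i => (∀ j : Fin r, (j : ℕ) + 1 < r → (Nm y (h j) (c j) (κ j) (v j) + σ j * (f j i : ℕ)).toNat.Prime) ∧
            ∀ j : Fin r, (j : ℕ) + 1 = r → ¬ (Nm y (h j) (c j) (κ j) (v j) + σ j * (f j i : ℕ)).toNat.Prime) := ⟨_, rfl⟩
    rw [← hA1] at g1
    rw [← hA2] at g2
    rw [← hA3]
    have e1 : A1.card = A2.card + A3.card := by
      have hdis : Disjoint A2 A3 := by
        rw [disjoint_left]
        intro i hi2 hi3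
        rw [hA2, mem_filter] at hi2
        rw [hA3, mem_filter] at hi3
        exact hi3.2.2 ⟨r - 1, by omega⟩ (by simp only; omega) (hi2.2 ⟨r - 1, by omega⟩ (by simp only; omega))
      rw [← card_union_of_disjoint hdis]
      congr 1
      ext i
      rw [mem_union, hA1, hA2, hA3, mem_filter, mem_filter, mem_filter]
      constructor
      · rintro ⟨hi, hq⟩
        by_cases hl : (Nm y (h ⟨r - 1, by omega⟩) (c ⟨r - 1, by omega⟩) (κ ⟨r - 1, by omega⟩) (v ⟨r - 1, by omega⟩) +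
            σ ⟨r - 1, by omega⟩ * (f ⟨r - 1, by omega⟩ i : ℕ)).toNat.Prime
        · refine Or.inl ⟨hi, fun j _ => ?_⟩
          by_cases hj : (j : ℕ) < r - 1
          · exact hq j hj
          · have : j = ⟨r - 1, by omega⟩ := by
              apply Fin.ext
              simp only
              omega
            rw [this]
            exact hl
        · refine Or.inr ⟨hi, fun j hj => hq j (by omega), fun j hj => ?_⟩
          have : j = ⟨r - 1, by omega⟩ := by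
            apply Fin.ext
            simp only
            omega
          rw [this]
          exact hl
      · rintro (⟨hi, hq⟩ | ⟨hi, hq, _⟩)
        · exact ⟨hi, fun j _ => hq j j.2⟩
        · exact ⟨hi, fun j hj => hq j (by omega)⟩
    have e2 : (A1.card : ℝ) = A2.card + A3.card := by exact_mod_cast e1
    have hE : m / Q ^ r = (m / Q ^ (r - 1)) / Q := by
      obtain ⟨t, rfl⟩ : ∃ t, r = t + 1 := ⟨r - 1, by omega⟩
      rw [Nat.add_sub_cancel, pow_succ]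
      field_simp
    obtain ⟨E, hEd⟩ : ∃ E, E = m / Q ^ (r - 1) := ⟨_, rfl⟩
    rw [hE] at g2
    rw [← hEd] at g1 g2 ⊢
    have hE0 : 0 ≤ E := by rw [hEd]; positivity
    have hEQ : E / Q ≤ ε / 4 * E := by
      rw [div_le_iff₀ hQ0]
      rw [div_le_iff₀ hε] at b2
      nlinarith
    have hEQ0 : 0 ≤ E / Q := by positivity
    have g3 := (abs_le.1 g2).2
    have g4 : (A2.card : ℝ) ≤ 2 * (E / Q) := by nlinarith
    have g5 : (0 : ℝ) ≤ A2.card := Nat.cast_nonneg _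
    obtain ⟨g6, g7⟩ := abs_le.1 g1
    rw [abs_le]
    constructor <;> linarith
  have hgoal : (if G' then 0 else ∏ j, p j (v j)) ≤ (if G then 0 else ∏ j, p j (v j)) := by
    by_cases hq : G
    · rw [if_pos hq, if_pos (himp hq)]
    · rw [if_neg hq]
      split_ifs
      · exact hw0
      · exact le_rfl
  refine le_trans (le_of_eq ?_) (hgoal.trans (le_of_eq ?_))
  · by_cases hq : G'
    · rw [if_pos hq, if_pos (hG'.1 hq)]
    · rw [if_neg hq, if_neg (fun h => hq (hG'.2 h))]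
  · by_cases hq : G
    · rw [if_pos hq, if_pos (hG.1 hq)]
    · rw [if_neg hq, if_neg (fun h => hq (hG.2 h))]

end Pool.Agent.Run7.h672.XC
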