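import Pool.Agent.N625.PT.X19
import Pool.Agent.Run7.h672.XC.X18

set_option autoImplicit false

/-! The theorems of `Pool.Agent.N625.PT.X19` (starting library, exchangeable blocks) for any class of laws with small exponential
sums: the text is that of the starting library, with the hypothesis replaced by `RCls`. -/

namespace Pool.Agent.Run7.h672.XC
open Pool.Agent.N625.PT
open Finset
open Pool.Agent.H373R2.T7 (pz mem_pz Vz Vz_pos Vz_le_one ev_L')

/-- two independent random multiples, one of them added to primes -/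
theorem pair_all {b L T : ℕ} {𝒞 : ℕ → (ℕ → ℝ) → Prop} (hcls : RCls b L T 𝒞) (κ κ' : ℤ)
    (hκ : κ ≠ 0) (hκ' : κ' ≠ 0) (B J A C K₁ : ℕ) (θ : ℝ) (hθ : 0 < θ) (ε : ℝ) (hε : 0 < ε) (hε1 : ε ≤ 1) :
    ∃ k₀ : ℕ, ∀ k : ℕ, k₀ ≤ k → ∀ μ μ' : ℕ → ℝ, 𝒞 k μ → 𝒞 k μ' →
    ∀ y : ℕ, θ * Real.log k ≤ y → y ≤ K₁ * Real.log k → ∀ c c' : ℤ, |c| ≤ B * (b : ℤ) ^ k → |c'| ≤ B * (b : ℤ) ^ k →
    ∀ h h' : ℕ, 1 ≤ h → h ≤ k ^ J → 1 ≤ h' → h' ≤ k ^ J → ∀ X : ℕ, b ^ k ≤ X * k ^ C → X ≤ b ^ k * k ^ C →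
    ∀ (I : Finset ℕ) (f g : ℕ → ℕ), Set.InjOn f I → Set.InjOn g I →
    (∀ i ∈ I, 1 ≤ f i ∧ f i ≤ X ∧ (f i).Coprime (primorial y * h)) → (∀ i ∈ I, (g i).Prime ∧ g i ≤ X) →
    (X : ℝ) ≤ I.card * (k : ℝ) ^ A →
    ∑ v ∈ range (b ^ k), ∑ v' ∈ range (b ^ k),
      (if 0 < Nm y h c κ v → 0 < Nm y h' c' κ' v' →
        |((I.filter (fun i => (Nm y h c κ v + (f i : ℕ)).toNat.Prime ∧ (Nm y h' c' κ' v' + (g i : ℕ)).toNat.Prime)).card : ℝ) -
          I.card / (Vz y * (k * Real.log b)) ^ 2| ≤ ε * (I.card / (Vz y * (k * Real.log b)) ^ 2) then 0 else μ v * μ' v') ≤ ε := by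
  have hb := hcls.two
  have hL := hcls.one
  obtain ⟨k1, h1⟩ := tuple_law hcls 2 ![κ, κ'] (by
    intro j
    fin_cases j
    · exact hκ
    · exact hκ') B J (A + 1) C K₁ θ hθ (ε / 2) (by linarith) (by linarith)
  obtain ⟨k2, h2⟩ := big_enough b A C (2 * K₁ + J + 4) hb ε hε
  refine ⟨max (max k1 k2) 3, fun k hk μ μ' hμ hμ' y hy1 hy2 c c' hc hc' h h' hh1 hhJ hh1' hhJ' X hX1 hX2 I f g hf hg hfI hgI hIA => ?_⟩
  obtain ⟨b3, b4, hbig⟩ := h2 k (by omega)
  have hk3 : 3 ≤ k := by omega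
  have hkr : (3 : ℝ) ≤ k := by exact_mod_cast hk3
  have hk0 : (0 : ℝ) < k := by linarith
  have hbr : (2 : ℝ) ≤ b := by exact_mod_cast hb
  have hlogb : 0 < Real.log b := Real.log_pos (by linarith)
  have hV0 : 0 < Vz y := Pool.Agent.H373R2.T7.Vz_pos y
  have hV1 : Vz y ≤ 1 := Pool.Agent.H373R2.T7.Vz_le_one y
  obtain ⟨Q, hQ⟩ : ∃ Q, Q = (Vz y * (k * Real.log b)) ^ 2 := ⟨_, rfl⟩
  have hQ0 : 0 < Q := by rw [hQ]; positivity
  have hQk : Q ≤ (k : ℝ) ^ 4 := by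
    rw [hQ]
    have e1 : Vz y * (k * Real.log b) ≤ (k : ℝ) ^ 2 := by
      calc Vz y * (k * Real.log b) ≤ 1 * (k * k) := mul_le_mul hV1 (mul_le_mul_of_nonneg_left b4 hk0.le) (by positivity) zero_le_one
        _ = _ := by ring
    calc (Vz y * (k * Real.log b)) ^ 2 ≤ ((k : ℝ) ^ 2) ^ 2 := pow_le_pow_left₀ (by positivity) e1 _
      _ = _ := by ring
  obtain ⟨D, hD⟩ : ∃ D, D = primorial y * h' := ⟨_, rfl⟩
  have hD1 : 1 ≤ D := by rw [hD]; exact Nat.mul_pos (primorial_pos y) hh1'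
  have hDk : (D : ℝ) ≤ (k : ℝ) ^ (2 * K₁ + J) := by
    rw [hD]
    exact_mod_cast mult_small K₁ J k y h' hk3 hy2 hhJ'
  have hbigI := hbig X hX1 I.card (Nat.cast_nonneg _) hIA
  obtain ⟨I', hI'⟩ : ∃ I', I' = I.filter (fun i => ¬ g i ∣ D) := ⟨_, rfl⟩
  have hsub : I' ⊆ I := by rw [hI']; exact filter_subset _ _
  have hcard1 : I'.card ≤ I.card := card_le_card hsub
  have hcard2 : I.card ≤ I'.card + D := by
    have e1 := card_filter_add_card_filter_not (s := I) (fun i => g i ∣ D)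
    rw [← hI'] at e1
    have e2 : (I.filter (fun i => g i ∣ D)).card ≤ D := by
      rw [← card_image_of_injOn (hg.mono (by
        intro i hi
        rw [mem_coe, mem_filter] at hi
        exact_mod_cast hi.1))]
      apply few_dvd D hD1
      intro q hq
      rw [mem_image] at hq
      obtain ⟨i, hi, rfl⟩ := hq
      rw [mem_filter] at hi
      exact ⟨(hgI i hi.1).1, hi.2⟩
    omega
  have hkU : (1 : ℝ) ≤ (k : ℝ) ^ 4 := one_le_pow₀ (by linarith)
  have hDU : (D : ℝ) * (k : ℝ) ^ 4 ≤ (k : ℝ) ^ (2 * K₁ + J + 4) := by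
    calc (D : ℝ) * (k : ℝ) ^ 4 ≤ (k : ℝ) ^ (2 * K₁ + J) * (k : ℝ) ^ 4 := mul_le_mul_of_nonneg_right hDk (by positivity)
      _ = _ := by rw [← pow_add]
  have hD0 : (0 : ℝ) ≤ D := Nat.cast_nonneg _
  have hbD : 4 * (D : ℝ) ≤ ε * I.card := by
    have : (D : ℝ) ≤ D * (k : ℝ) ^ 4 := le_mul_of_one_le_right hD0 hkU
    linarith
  have hbDQ : 4 * (D : ℝ) * Q ≤ ε * I.card := by
    have : (D : ℝ) * Q ≤ D * (k : ℝ) ^ 4 := mul_le_mul_of_nonneg_left hQk hD0
    linarith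
  have hI0 : (0 : ℝ) ≤ I.card := Nat.cast_nonneg _
  have hhalf : (I.card : ℝ) ≤ 2 * I'.card := by
    have e1 : (I.card : ℝ) ≤ I'.card + D := by exact_mod_cast hcard2
    have e2 : ε * (I.card : ℝ) ≤ I.card := mul_le_of_le_one_left hI0 hε1
    linarith
  have h5 := h1 k (by omega) ![μ, μ'] (by
    intro j
    fin_cases j
    · exact hμ
    · exact hμ') y hy1 hy2 ![c, c'] (by
    intro j
    fin_cases j
    · exact hc
    · exact hc') ![h, h'] (by
    intro j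
    fin_cases j
    · exact ⟨hh1, hhJ⟩
    · exact ⟨hh1', hhJ'⟩) X hX1 hX2 I' ![f, g] (by
    intro j
    fin_cases j
    · exact hf.mono (by exact_mod_cast hsub)
    · exact hg.mono (by exact_mod_cast hsub)) (by
    intro j i hi
    have hi2 := hsub hi
    fin_cases j
    · exact hfI i hi2
    · refine ⟨(hgI i hi2).1.pos, (hgI i hi2).2, ?_⟩
      rw [hI', mem_filter, hD] at hi
      exact ((hgI i hi2).1.coprime_iff_not_dvd).2 hi.2) (by
    calc (X : ℝ) ≤ I.card * (k : ℝ) ^ A := hIA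
      _ ≤ (2 * I'.card) * (k : ℝ) ^ A := mul_le_mul_of_nonneg_right hhalf (by positivity)
      _ = I'.card * (2 * (k : ℝ) ^ A) := by ring
      _ ≤ I'.card * (k * (k : ℝ) ^ A) := by
          apply mul_le_mul_of_nonneg_left _ (Nat.cast_nonneg _)
          exact mul_le_mul_of_nonneg_right (by linarith) (by positivity)
      _ = _ := by rw [← pow_succ']) ![1, 1] (by
    intro j
    fin_cases j <;> exact Or.inl rfl)
  rw [← sum_two (range (b ^ k)) (fun v v' => if 0 < Nm y h c κ v → 0 < Nm y h' c' κ' v' →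
        |((I.filter (fun i => (Nm y h c κ v + (f i : ℕ)).toNat.Prime ∧ (Nm y h' c' κ' v' + (g i : ℕ)).toNat.Prime)).card : ℝ) -
          I.card / (Vz y * (k * Real.log b)) ^ 2| ≤ ε * (I.card / (Vz y * (k * Real.log b)) ^ 2) then 0 else μ v * μ' v')]
  refine le_trans (sum_le_sum fun v _ => ?_) (h5.trans (by linarith))
  have hm0 : ∀ v : ℕ, 0 ≤ μ v := hcls.nonneg _ _ hμ
  have hm0' : ∀ v : ℕ, 0 ≤ μ' v := hcls.nonneg _ _ hμ'
  have hprod : ∏ j : Fin 2, (![μ, μ'] : Fin 2 → ℕ → ℝ) j (v j) = μ (v 0) * μ' (v 1) := by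
    rw [Fin.prod_univ_two]
    rfl
  rw [hprod]
  by_cases hq : 0 < Nm y h c κ (v 0) → 0 < Nm y h' c' κ' (v 1) →
        |((I.filter (fun i => (Nm y h c κ (v 0) + (f i : ℕ)).toNat.Prime ∧ (Nm y h' c' κ' (v 1) + (g i : ℕ)).toNat.Prime)).card : ℝ) -
          I.card / (Vz y * (k * Real.log b)) ^ 2| ≤ ε * (I.card / (Vz y * (k * Real.log b)) ^ 2)
  · rw [if_pos hq]
    split_ifs
    · exact le_rfl
    · exact mul_nonneg (hm0 _) (hm0' _)
  · rw [if_neg hq, if_neg]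
    intro hall
    apply hq
    intro q1 q2
    have h6 := hall (by
      intro j i hi
      fin_cases j
      · have : (0 : ℤ) ≤ (f i : ℤ) := Int.natCast_nonneg _
        show 0 < Nm y h c κ (v 0) + 1 * (f i : ℤ)
        linarith
      · have : (0 : ℤ) ≤ (g i : ℤ) := Int.natCast_nonneg _
        show 0 < Nm y h' c' κ' (v 1) + 1 * (g i : ℤ)
        linarith) 2 le_rfl
    have hset : (I.filter (fun i => (Nm y h c κ (v 0) + (f i : ℕ)).toNat.Prime ∧ (Nm y h' c' κ' (v 1) + (g i : ℕ)).toNat.Prime)) =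
        (I'.filter (fun i => ∀ j : Fin 2, (j : ℕ) < 2 → (Nm y ((![h, h'] : Fin 2 → ℕ) j) ((![c, c'] : Fin 2 → ℤ) j) ((![κ, κ'] : Fin 2 → ℤ) j) (v j) +
          (![1, 1] : Fin 2 → ℤ) j * ((![f, g] : Fin 2 → ℕ → ℕ) j i : ℕ)).toNat.Prime)) := by
      ext i
      rw [mem_filter, mem_filter, hI', mem_filter]
      constructor
      · rintro ⟨hi, g1, g2⟩
        refine ⟨⟨hi, ?_⟩, ?_⟩
        · intro hdvd
          have f1 : ((g i : ℕ) : ℤ) ∣ Nm y h' c' κ' (v 1) + (g i : ℕ) := by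
            apply dvd_add _ (dvd_refl _)
            unfold Nm
            rw [← hD]
            exact (by exact_mod_cast hdvd : ((g i : ℕ) : ℤ) ∣ (D : ℤ)).mul_right _
          have f0 : (0 : ℤ) ≤ ((g i : ℕ) : ℤ) := Int.natCast_nonneg _
          have f2 : (0 : ℤ) ≤ Nm y h' c' κ' (v 1) + (g i : ℕ) := by linarith
          have f3 : g i ∣ (Nm y h' c' κ' (v 1) + (g i : ℕ)).toNat := by
            rw [← Int.natCast_dvd_natCast, Int.toNat_of_nonneg f2]
            exact f1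
          have f4 := (Nat.prime_dvd_prime_iff_eq (hgI i hi).1 g2).1 f3
          have f5 : ((g i : ℕ) : ℤ) = Nm y h' c' κ' (v 1) + (g i : ℕ) := by
            conv_lhs => rw [f4]
            rw [Int.toNat_of_nonneg f2]
          linarith
        · intro j _
          fin_cases j
          · show (Nm y h c κ (v 0) + 1 * (f i : ℤ)).toNat.Prime
            rw [one_mul]
            exact g1
          · show (Nm y h' c' κ' (v 1) + 1 * (g i : ℤ)).toNat.Prime
            rw [one_mul]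
            exact g2
      · rintro ⟨⟨hi, _⟩, g1⟩
        have g2 := g1 0 (by norm_num)
        have g3 := g1 1 (by norm_num)
        refine ⟨hi, ?_, ?_⟩
        · have : (Nm y h c κ (v 0) + 1 * (f i : ℤ)).toNat.Prime := g2
          rwa [one_mul] at this
        · have : (Nm y h' c' κ' (v 1) + 1 * (g i : ℤ)).toNat.Prime := g3
          rwa [one_mul] at this
    rw [hset]
    rw [← hQ] at h6 ⊢
    exact remove_few I.card I'.card _ _ D Q ε hQ0 hε hε1 (by exact_mod_cast hcard1) (by exact_mod_cast hcard2) le_rfl (by linarith)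
      hD0 (Nat.cast_nonneg _) hbD hbDQ h6

end Pool.Agent.Run7.h672.XC
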